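import Pool.Agent.Helper27.UC.FinF
import Pool.Agent.Helper25.UC.SPLIT
import Pool.Agent.Helper25.UC.ONEN
import Pool.Agent.Helper24.UC.EMN
import Pool.Agent.Helper36.UC.EMP1
import Pool.Agent.Helper90.UC.EMP2
import Pool.Agent.Helper26.UC.BLK
import Pool.Agent.Helper97.UC.REGN
import Pool.Agent.Helper79.UC.ALLN
import Pool.Agent.Helper79.UC.FN

/-!
PROJECT UC: almost equal multiplicities (helper27).
-/

set_option autoImplicit false

noncomputable section

namespace Pool.Agent.Helper27.UC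

theorem onen : S_ONEN :=
  Helper25.UC.ONEN.t Helper25.UC.SPLIT.t glue3
    (Helper36.UC.EMP1.t (Helper62.UC.EMG.t cnv) Helper24.UC.EMN.t)
    (Helper90.UC.EMP2.t (Helper62.UC.EMG.t cnv) Helper24.UC.EMN.t)
    (Helper97.UC.REGN.t (Helper91.UC.RGG.t cnv) Helper26.UC.BLK.t)

theorem fn (hB : S_BAL) : S_FN :=
  Helper79.UC.FN.t (Helper79.UC.ALLN.t onen Helper26.UC.MON.t) hB Helper15.UC.GDG.t

end Pool.Agent.Helper27.UC
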