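import Pool.Agent.Helper27.UC.Fin
import Pool.Agent.Helper27.UC.FinN
import Pool.Agent.Helper94.UC.BAL

/-!
PROJECT UC: the final statement (helper27).
-/

set_option autoImplicit false

noncomputable section

namespace Pool.Agent.Helper27.UC

open Pool.Agent.Helper1.All

theorem final : ∃ C : ℕ, ∀ (n : ℕ) (m : Fin n → ℕ), ∃ d₀ : ℕ, ∀ d : ℕ,
    (CaseE n m d₀ d ∨ CaseF n m ∨ CaseG C n m) → GenDim d m (max (vdim d m) 0) :=
  fin fw (fn (Helper94.UC.BAL.t cnv))

end Pool.Agent.Helper27.UC
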