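import Pool.Agent.Helper27.UC.Goals8

/-!
PROJECT UC: comparable multiplicities, each repeated at least `40000 K²` times (helper27).
-/

set_option autoImplicit false

noncomputable section

namespace Pool.Agent.Helper27.UC

/-- comparable multiplicities, each repeated at least `40000 K²` times -/
def CaseK (n : ℕ) (m : Fin n → ℕ) : Prop :=
  ∃ K : ℕ, ∀ i, 2 ≤ m i →
    40000 * K ^ 2 ≤ (Finset.univ.filter (fun j => m j = m i)).card ∧ ∀ j, 2 ≤ m j → m i ≤ K * m j

theorem caseQ_of_caseK (n : ℕ) (m : Fin n → ℕ) (h : CaseK n m) : CaseQ n m := by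
  classical
  obtain ⟨K, hK⟩ := h
  obtain ⟨J, hJ⟩ : ∃ J, J = Finset.univ.filter (fun i => 2 ≤ m i) := ⟨_, rfl⟩
  have hmJ : ∀ i, i ∈ J ↔ 2 ≤ m i := by
    intro i
    rw [hJ]
    simp
  rcases J.eq_empty_or_nonempty with hJe | hJne
  · refine ⟨1, m, le_rfl, ?_, ?_, ?_⟩
    · rw [← hJ, hJe]
      simp
    · rw [← hJ, hJe]
      simp
    · intro i hi
      exfalso
      have h1 := (hmJ i).2 hi
      rw [hJe] at h1
      simp at h1
  · obtain ⟨i0, hi0, hmax⟩ := J.exists_max_image m hJne
    obtain ⟨X, hX⟩ : ∃ X, X = m i0 := ⟨_, rfl⟩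
    have hX2 : 2 ≤ X := by
      rw [hX]
      exact (hmJ i0).1 hi0
    have hXmax : ∀ i ∈ J, m i ≤ X := by
      intro i hi
      rw [hX]
      exact hmax i hi
    have hK1 : 1 ≤ K := by
      have h1 := (hK i0 ((hmJ i0).1 hi0)).2 i0 ((hmJ i0).1 hi0)
      rcases Nat.eq_zero_or_pos K with h0 | h0
      · rw [h0, zero_mul] at h1
        omega
      · exact h0
    obtain ⟨Q, hQ⟩ : ∃ Q, Q = ∑ j ∈ J, m j ^ 2 := ⟨_, rfl⟩
    have hfib : ∀ x ∈ J.image m, (J.filter (fun j => m j = x)) =
        Finset.univ.filter (fun j => m j = x) := by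
      intro x hx
      obtain ⟨i, hi, rfl⟩ := Finset.mem_image.1 hx
      have hi2 := (hmJ i).1 hi
      ext j
      simp only [Finset.mem_filter, Finset.mem_univ, true_and, hmJ]
      exact ⟨fun h => h.2, fun h => ⟨by omega, h⟩⟩
    -- the number of the values
    have hq : (J.image m).card * (40000 * X ^ 2) ≤ Q := by
      rw [hQ, Finset.sum_comp (fun x => x ^ 2) m, ← smul_eq_mul, ← Finset.sum_const]
      refine Finset.sum_le_sum fun x hx => ?_
      rw [hfib x hx]
      obtain ⟨i, hi, rfl⟩ := Finset.mem_image.1 hx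
      have h1 := (hK i ((hmJ i).1 hi)).1
      have h2 := (hK i0 ((hmJ i0).1 hi0)).2 i ((hmJ i).1 hi)
      rw [← hX] at h2
      rw [smul_eq_mul]
      calc 40000 * X ^ 2 ≤ 40000 * (K * m i) ^ 2 := by
            exact Nat.mul_le_mul le_rfl (Nat.pow_le_pow_left h2 2)
        _ = (40000 * K ^ 2) * m i ^ 2 := by ring
        _ ≤ _ := Nat.mul_le_mul h1 le_rfl
    have hq1 : 40000 * K ^ 2 * X ^ 2 ≤ Q := by
      rw [hQ, Finset.sum_comp (fun x => x ^ 2) m]
      have h1 : X ∈ J.image m := by
        rw [hX]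
        exact Finset.mem_image_of_mem m hi0
      refine le_trans ?_ (Finset.single_le_sum
        (f := fun x => (J.filter (fun j => m j = x)).card • x ^ 2) (fun x _ => Nat.zero_le _) h1)
      simp only [smul_eq_mul]
      rw [hfib X h1]
      have h2 := (hK i0 ((hmJ i0).1 hi0)).1
      rw [← hX] at h2
      exact Nat.mul_le_mul h2 le_rfl
    obtain ⟨s, hs⟩ : ∃ s, s = Nat.sqrt Q := ⟨_, rfl⟩
    have hs1 : s * s ≤ Q := by
      rw [hs]
      exact Nat.sqrt_le Q
    have hs2 : Q < (s + 1) * (s + 1) := by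
      rw [hs]
      exact Nat.lt_succ_sqrt Q
    have hs3 : 200 * X ≤ s := by
      rw [hs, Nat.le_sqrt]
      calc 200 * X * (200 * X) = 40000 * 1 ^ 2 * X ^ 2 := by ring
        _ ≤ 40000 * K ^ 2 * X ^ 2 := by
            exact Nat.mul_le_mul (Nat.mul_le_mul le_rfl (Nat.pow_le_pow_left hK1 2)) le_rfl
        _ ≤ Q := hq1
    obtain ⟨c, hc⟩ : ∃ c, c = s / (100 * X) := ⟨_, rfl⟩
    have hX100 : 0 < 100 * X := by omega
    have hc1 : 1 ≤ c := by
      rw [hc, Nat.one_le_div_iff hX100]
      omega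
    have hc2 : 100 * X * c ≤ s := by
      rw [hc]
      exact Nat.mul_div_le s (100 * X)
    have hc3 : s < 100 * X * (c + 1) := by
      rw [hc]
      exact Nat.lt_mul_div_succ s hX100
    have hc4 : s + 1 ≤ 200 * X * c := by
      have : 100 * X * (c + 1) ≤ 200 * X * c := by nlinarith
      omega
    have hc5 : Q < (200 * X * c) ^ 2 := by
      calc Q < (s + 1) * (s + 1) := hs2
        _ ≤ (200 * X * c) * (200 * X * c) := Nat.mul_le_mul hc4 hc4
        _ = _ := by ring
    refine ⟨c, m, hc1, ?_, ?_, ?_⟩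
    · rw [← hJ]
      by_contra hcon
      push Not at hcon
      have h1 : (c ^ 2) * (40000 * X ^ 2) ≤ (J.image m).card * (40000 * X ^ 2) :=
        Nat.mul_le_mul hcon.le le_rfl
      have h2 : (200 * X * c) ^ 2 = (c ^ 2) * (40000 * X ^ 2) := by ring
      omega
    · rw [← hJ]
      have : ∑ i ∈ J, m i * (m i - m i) = 0 := by
        refine Finset.sum_eq_zero fun i _ => ?_
        rw [Nat.sub_self, mul_zero]
      rw [this, mul_zero]
      exact Nat.zero_le _
    · intro i hi
      rw [← hJ, ← hQ]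
      have hiJ := (hmJ i).2 hi
      refine ⟨le_rfl, ?_, ?_⟩
      · calc (100 * c * m i) ^ 2 ≤ s ^ 2 := by
              apply Nat.pow_le_pow_left
              have h1 := hXmax i hiJ
              calc 100 * c * m i ≤ 100 * c * X := Nat.mul_le_mul le_rfl h1
                _ = 100 * X * c := by ring
                _ ≤ s := hc2
          _ = s * s := by ring
          _ ≤ Q := hs1
      · have h1 := (hK i hi).1
        have h2 := (hK i0 ((hmJ i0).1 hi0)).2 i hi
        rw [← hX] at h2
        have h3 : (Finset.univ.filter (fun j => 2 ≤ m j ∧ m j = m i)) =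
            Finset.univ.filter (fun j => m j = m i) := by
          ext j
          simp only [Finset.mem_filter, Finset.mem_univ, true_and]
          exact ⟨fun h => h.2, fun h => ⟨by omega, h⟩⟩
        rw [h3]
        refine le_trans hc5.le (Nat.pow_le_pow_left ?_ 2)
        obtain ⟨N, hN⟩ : ∃ N, N = (Finset.univ.filter (fun j => m j = m i)).card := ⟨_, rfl⟩
        rw [← hN] at h1 ⊢
        have h4 : 200 * X ≤ m i * N := by
          calc 200 * X ≤ 200 * (K * m i) := Nat.mul_le_mul le_rfl h2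
            _ = m i * (200 * K) := by ring
            _ ≤ m i * N := Nat.mul_le_mul le_rfl (by nlinarith)
        calc 200 * X * c ≤ (m i * N) * c := Nat.mul_le_mul h4 le_rfl
          _ = c * (m i * N) := by ring

end Pool.Agent.Helper27.UC
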