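import Pool.Agent.Helper27.UC.G2R
import Pool.Agent.Helper62.UC.G1R
import Pool.Agent.Helper62.UC.LIFT
import Pool.Agent.Helper45.UC.FRM
import Pool.Agent.Helper45.UC.BR
import Pool.Agent.Helper66.UC.SEM
import Pool.Agent.Helper9.UC.SHF
import Pool.Agent.Helper24.UC.FOUR
import Pool.Agent.Helper60.UC.FOR4
import Pool.Agent.Helper13.UC.WRO
import Pool.Agent.Helper4.UC.TAU
import Pool.Agent.Helper97.UC.TRN
import Pool.Agent.Helper71.UC.FAM
import Pool.Agent.Helper91.UC.G1F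
import Pool.Agent.Helper93.UC.GEN
import Pool.Agent.Helper15.UC.CNV
import Pool.Agent.Helper36.UC.G1M

/-!
PROJECT UC: the collision inequalities (helper27).
-/

set_option autoImplicit false

noncomputable section

namespace Pool.Agent.Helper27.UC

theorem g1r : S_G1R :=
  Helper62.UC.G1R.t Helper66.UC.SEM.t Helper9.UC.SHF.t
    (Helper60.UC.FOR4.t Helper9.UC.SHF.t Helper24.UC.FOUR.t)
    (Helper97.UC.trn_of Helper13.UC.WRO.t (Helper4.UC.TAU.t Helper66.UC.SEM.t))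
    Helper71.UC.FAM.t

theorem g2r : S_G2R :=
  G2R.t (Helper62.UC.LIFT.t Helper66.UC.SEM.t Helper9.UC.SHF.t) Helper45.UC.FRM.t

theorem g1m : S_G1M :=
  Helper36.UC.G1M.t (Helper91.UC.G1F.t1 g1r Helper45.UC.BR.t) (Helper93.UC.GEN.t Helper45.UC.BR.t)

theorem g2m : S_G2M :=
  Helper36.UC.G1M.t2 (Helper91.UC.G1F.t2 g2r Helper45.UC.BR.t) (Helper93.UC.GEN.t Helper45.UC.BR.t)

theorem cnv : S_CNV := Helper15.UC.CNV.t

end Pool.Agent.Helper27.UC
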