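import Pool.Agent.Helper27.UC.Defs

/-!
PROJECT UC (MP_d3128a_ag): goals with proofs in words (helper27). The numbers `rho_t` etc. are explained in
each goal. Field `K` of characteristic zero. `t` is `C X`, `s` is `X` in `R2 K = K[t][s]`.
-/

set_option autoImplicit false

noncomputable section

namespace Pool.Agent.Helper27.UC

open Polynomial Module Pool.Agent.Helper97.Tate

/-- SEM (0.5 h). Semicontinuity. PROOF. `c i 0` independent: there is a linear map `π : V → (Fin n → K)` with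
`π (c i 0) = Pi.single i 1` (extend to a basis, or `LinearMap.exists_leftInverse`). The determinant of the
matrix `M(X)_{ik} = Σ_s X ^ s π(c i s)_k` over `K[X]` is `1` at `X = 0`, so it is not zero, so `X * det` is a
non-zero polynomial and there is `ε` with `ε ≠ 0`, `det (M(ε)) ≠ 0` (`K` is infinite). Then the rows of
`M(ε)` are independent, hence the vectors. -/
def S_SEM : Prop := ∀ (K : Type) [Field K] [CharZero K] (V : Type) [AddCommGroup V] [Module K V]
  (n D : ℕ) (c : Fin n → ℕ → V), LinearIndependent K (fun i => c i 0) →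
  ∃ ε : K, ε ≠ 0 ∧ LinearIndependent K (fun i => ∑ s ∈ Finset.range (D + 1), ε ^ s • c i s)

/-- SHF (0.8 h). Formal properties of translations and substitutions.
(1) algebra homomorphisms of `K[t][s]` agreeing at `C X` and `X` are equal; `sh u v (sh a b f) = sh (a+u)
(b+v) f`; `sh 0 0 f = f`.
(2) the binomial formula is not needed: for the scaling `subt (C (C ε * X)) (C (C ε) * X)` (`t ↦ ε t`, `s ↦ ε s`)
`cof i j` is multiplied by `ε ^ (i + j)` (check on monomials). So, for `f = Σ_k hc k f` (`f` of total degree at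
most `D`), `ε ^ (i+j) cof i j (sh (ε u) (ε v) f)` is the coefficient of `f(ε u + ε t, ε v + ε s)`, and this
is `Σ_k ε ^ k (hc k f)(u + t, v + s)`.
(3) `subt (lin p0 q0) (lin p1 q1)` maps order `≥ m` to order `≥ m` and degree `≤ D` to degree `≤ D` and is
injective if the determinant is not zero (compose with the inverse substitution).
(4) total degree is preserved by `sh`, top degree parts too. -/
def S_SHF : Prop := ∀ (K : Type) [Field K] [CharZero K],
  (∀ (u v a b : K) (f : R2 K), sh u v (sh a b f) = sh (a + u) (b + v) f) ∧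
  (∀ f : R2 K, sh 0 0 f = f) ∧
  (∀ (D : ℕ) (f : R2 K) (ε u v : K) (i j : ℕ), f ∈ De D →
    ε ^ (i + j) * cof i j (sh (ε * u) (ε * v) f) =
      ∑ k ∈ Finset.range (D + 1), ε ^ k * cof i j (sh u v (hc k f))) ∧
  (∀ (m : ℕ) (f : R2 K) (p0 q0 p1 q1 : K), f ∈ Od m → subt (lin p0 q0) (lin p1 q1) f ∈ Od m) ∧
  (∀ (D : ℕ) (f : R2 K) (p0 q0 p1 q1 : K), f ∈ De D → subt (lin p0 q0) (lin p1 q1) f ∈ De D) ∧
  (∀ (f : R2 K) (p0 q0 p1 q1 : K), p0 * q1 - p1 * q0 ≠ 0 → subt (lin p0 q0) (lin p1 q1) f = 0 → f = 0) ∧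
  (∀ (D : ℕ) (f : R2 K) (u v : K), f ∈ De D → sh u v f ∈ De D ∧
    ∀ i j, i + j = D → cof i j (sh u v f) = cof i j f) ∧
  (∀ (k : ℕ) (f : R2 K) (p0 q0 p1 q1 : K), hc k (subt (lin p0 q0) (lin p1 q1) f) =
    subt (lin p0 q0) (lin p1 q1) (hc k f)) ∧
  (∀ (f : R2 K) (p0 q0 p1 q1 e e' : K), sh e e' (subt (lin p0 q0) (lin p1 q1) f) =
    subt (lin p0 q0) (lin p1 q1) (sh (e * p0 + e' * q0) (e * p1 + e' * q1) f))

/-- FOUR (1 h). The four points `(±1, ±1)`. PROOF. (A) total degree `≤ 2 m - 1` and multiplicity `≥ m` at the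
four points imply `f = 0`; induction on `m`. `m = 0`: all the coefficients are zero by hypothesis. `m + 1`:
`f(t, 1)` (evaluate `X` at `C 1`) is a polynomial of degree `≤ 2 m + 1` divisible by `(t - 1)^(m+1) (t+1)^(m+1)`
(the coefficients of `s ^ 0` of `sh e 1 f` vanish up to `t ^ m`; `f(t + e, 1)` divisible by `t^(m+1)`),
so `f(t, 1) = 0`, `f` is divisible by `X - 1`; the same for `X + 1`: `f = (X^2 - 1) g`, total degree of `g`
`≤ 2 m - 1` (compare top degree parts: if `g` has a non-zero coefficient of total degree `D ≥ 2 m` maximal,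
take among those the maximal `j`, then `t^i s^(j+2)` occurs in `f`), and `sh e e' f = ((X + e')^2 - 1) sh e e' g =
X (X + 2 e') sh e e' g`; so the coefficient of `t^i s^(j+1)` of `sh e e' f` is `2 e' g_ij + g_i,j-1` and by
induction on `j` `g_ij = 0` for `i + j < m`.
(B) total degree `≤ 2 m`: let `k` be with `f(t, s) - f(-t, s) = t k(t, s)`. `k` has total degree `≤ 2 m - 1` and
multiplicity `≥ m` at the four points (`f(-t,s)` has; and `t k` at `t = e + t'`: `(e + t') k`: induction on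
`i` gives the coefficients of `k`). So `k = 0`, `f` is even in `t`. -/
def S_FOUR : Prop := ∀ (K : Type) [Field K] [CharZero K] (m : ℕ) (f : R2 K),
  (∀ e e' : K, (e = 1 ∨ e = -1) → (e' = 1 ∨ e' = -1) → sh e e' f ∈ Od m) →
  (f ∈ De (2 * m) → ∀ i j, Odd i → cof i j f = 0) ∧
  ((∀ i j, 2 * m ≤ i + j → cof i j f = 0) → f = 0)

/-- FOR4 (0.4 h, from SHF, FOUR). The same at the points `± p ± q`. PROOF. FOUR for
`F = subt (lin p0 q0) (lin p1 q1) f`, `sh e e' F = subt .. (sh (e p0 + e' q0) (e p1 + e' q1) f)`; the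
top degree part of `F` is `subt .. (hc (2 m) f)`, with the coefficients `cof i j F`, `i + j = 2 m`. -/
def S_FOR4 : Prop := ∀ (K : Type) [Field K] [CharZero K] (m : ℕ) (f : R2 K) (p0 q0 p1 q1 : K),
  p0 * q1 - p1 * q0 ≠ 0 →
  (∀ e e' : K, (e = 1 ∨ e = -1) → (e' = 1 ∨ e' = -1) →
    sh (e * p0 + e' * q0) (e * p1 + e' * q1) f ∈ Od m) →
  (f ∈ De (2 * m) → ∀ i j, Odd i → cof i j (subt (lin p0 q0) (lin p1 q1) (hc (2 * m) f)) = 0) ∧
  ((∀ i j, 2 * m ≤ i + j → cof i j f = 0) → f = 0)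

/-- WRO (1 h, from SEM). PROOF. `ν = dim U`. `U` has a basis `f_1, ..., f_ν` with distinct degrees
`e_1, ..., e_ν` (induction on `ν`: the elements of `U` of degree less than the maximal degree are a
hyperplane). In `K[w]` modulo `w ^ ν`: the truncations of `(1 + w) ^ (e_i)` are independent: a relation
`Σ c_i C(e_i, k) = 0` for all `k < ν` gives `Σ c_i q(e_i) = 0` for all polynomials `q` of degree `< ν`,
Vandermonde, `c = 0`. Now, with `p = 1 / ε`: `ε ^ (e_i) f_i((1 + w) / ε)` is a polynomial in `ε`, equal to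
`(1 + w) ^ (e_i)` (for `f_i` monic) at `ε = 0`; by SEM (in `V = (Fin ν → K)`, the coefficients of
`w ^ k`, `k < ν`) there is `ε ≠ 0` such that the vectors are independent, i.e. no non-zero combination of the
`f_i` is divisible by `(z - 1 / ε) ^ ν`. -/
def S_WRO : Prop := ∀ (K : Type) [Field K] [CharZero K] (U : Submodule K (Polynomial K)),
  FiniteDimensional K U → ∃ p : K, ∀ f ∈ U, (X - C p) ^ (finrank K U) ∣ f → f = 0

/-- TAU (0.8 h, from SEM). PROOF. Let `f_1, ..., f_ν` be a basis of `U`, `ν ≤ m`. The vectors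
`f_1, ..., f_ν, (y (1 + ε y)) ^ i` (`i = 0, ..., m`) are polynomials in `ε`, and at `ε = 0` they are
`f_j, y ^ i`, independent as `U` contains no non-zero polynomial of degree `≤ m`. By SEM they are independent
for some `ε ≠ 0`. Let `τ = 1 / (2 ε)`: `(y + τ)^2 - τ^2 = 2 τ y (1 + ε y)`. A polynomial `f` of degree
`≤ 2 m` with `f(y - τ) = f(-y - τ)`: `f(y - τ)` is even, a combination of `y^(2 i)`, `i ≤ m`, so `f` is a
combination of `(y + τ)^(2 i)`, so of the `(y (1 + ε y))^i`. So such an `f` in `U` is zero. -/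
def S_TAU : Prop := ∀ (K : Type) [Field K] [CharZero K] (m : ℕ) (U : Submodule K (Polynomial K)),
  (∀ f ∈ U, f.natDegree ≤ 2 * m) → finrank K U ≤ m → (∀ f ∈ U, f.natDegree ≤ m → f = 0) →
  ∃ τ : K, ∀ f ∈ U, f.comp (X - C τ) = f.comp (-X - C τ) → f = 0

/-- TRN (1.2 h, from WRO, TAU). General position of a space of binary forms of degree `2 m`. PROOF.
`g = Σ g_k t^(2m-k) s^k`. WRO for `U = {g(z, 1) = Σ g_k z^(2m-k)}` (dimension `≤ m`, `g ↦ g(z, 1)` is
injective): `κ` such that no `g(z + κ, 1)`, `g ≠ 0`, is divisible by `z ^ m`. Let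
`γ(y) = g(1 + κ y, y) = Σ_k g_k (1 + κ y)^(2m-k) y^k`, of degree `≤ 2 m`; the coefficient of `y^(2m-l)` is the
coefficient of `z^l` of `g(z + κ, 1)` (reversal: `y^(2m) g(1/y + κ, 1)`, `z = 1 / y`). So `γ` has degree `> m` for
`g ≠ 0`. TAU for the space of these `γ`: `τ`. Take `p = (p0, p1) = (1 - τ κ, -τ)`, `q = (q0, q1) = (κ, 1)`:
`p0 q1 - p1 q0 = 1`, `t p + s q = (t + κ y, y)` with `y = s - τ t`. If `g(t p + s q)` is even in `t` then
its values at `t = 1` and `t = -1` are equal as polynomials in `s`: `g(1 + κ y, y)` at `y = s - τ` is `γ(s - τ)`;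
`g(-1 + κ y, y)` at `y = s + τ` is (even degree `2 m`, homogeneous) `g(1 - κ y, -y) = γ(-y) = γ(-s - τ)`. So
`γ(s - τ) = γ(-s - τ)`, `γ = 0`, `g = 0`. -/
def S_TRN : Prop := ∀ (K : Type) [Field K] [CharZero K] (m : ℕ) (G : Submodule K (R2 K)),
  (∀ g ∈ G, hc (2 * m) g = g) → FiniteDimensional K G → finrank K G ≤ m →
  ∃ p0 q0 p1 q1 : K, p0 * q1 - p1 * q0 ≠ 0 ∧
    ∀ g ∈ G, (∀ i j, Odd i → cof i j (subt (lin p0 q0) (lin p1 q1) g) = 0) → g = 0

/-- FAM (0.8 h). A family adapted to the order at the origin. PROOF. Induction on `M`: `M = 0`: `n = 0`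
(`Od 0 = ⊤`). Step: the map `hc M` on `W ⊓ Od M` has the kernel `W ⊓ Od (M + 1)`; take
`finrank (W ⊓ Od M) - finrank (W ⊓ Od (M+1))` elements of `W ⊓ Od M` with `hc M` independent and put
`t i = M` for them. The old `hc (t i) (v i)` are in the span of the homogeneous polynomials of degree `< M`,
the new ones are homogeneous of degree `M`: the union is independent. -/
def S_FAM : Prop := ∀ (K : Type) [Field K] (W : Submodule K (R2 K)) (M : ℕ), FiniteDimensional K W →
  ∃ (n : ℕ) (v : Fin n → R2 K) (t : Fin n → ℕ), n + finrank K (W ⊓ Od M : Submodule K (R2 K)) = finrank K W ∧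
    (∀ i, v i ∈ W ∧ v i ∈ Od (t i) ∧ t i < M) ∧ LinearIndependent K (fun i => hc (t i) (v i))

/-- G1R (2 h, from SEM, SHF, FOR4, TRN, FAM). Collision of four points. PROOF. `G` = the image of
`W ⊓ Od (2 m)` under `hc (2 m)`, of dimension `g = finrank (W ⊓ Od (2m)) - finrank (W ⊓ Od (2m+1))`. Choose a
subspace `G' ≤ G` of dimension `min g m`, elements `v_i` of `W ⊓ Od (2 m)` with `hc (2 m) (v_i)` a basis of
`G'`, add the family of FAM with `M = 2 m`. Total number of vectors: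
`dim W - max (finrank (W ⊓ Od (2m+1)), finrank (W ⊓ Od (2m)) - m) ≥ dim W - N`; the vectors `hc (t i) (v i)`
are independent. By TRN for `G'` we get `p, q`. Let `Λ_ε : R2 K → Y`, `Y` = functions `(l, i, j) ↦ cof i j
(sh (ε u_l) (ε v_l) f)`, `l` = the four points `(u_l, v_l) = e p + e' q`, `i + j < m`. If a combination `h` of
the `hc (t i) (v i)` has `Λ_1 h = 0` then by FOR4 (`h ∈ De (2 m)`) `hc (2 m) h ∈ G'` is zero by TRN and then
`h = 0` by FOR4. So the vectors `Λ_1 (hc (t i) (v i))` are independent. By SHF (3)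
`ε^(a + b) Λ_ε(v i)_(l,a,b) = ε^(t i) Σ_s ε^s Λ_1 (hc (t i + s) (v i))`, so by SEM there is `ε ≠ 0` with
`Λ_ε (v i)` independent; the rank of `Λ_ε` on `W` is at least `dim W - N`. -/
def S_G1R : Prop := ∀ (K : Type) [Field K] [CharZero K] (W : Submodule K (R2 K)) (m N : ℕ),
  FiniteDimensional K W →
  finrank K (W ⊓ Od (2 * m + 1) : Submodule K (R2 K)) ≤ N →
  finrank K (W ⊓ Od (2 * m) : Submodule K (R2 K)) ≤ N + m →
  ∃ u v : Fin 4 → K,
    finrank K (W ⊓ ⨅ l, (Od m).comap (sh (u l) (v l)).toLinearMap : Submodule K (R2 K)) ≤ N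

/-- G2R (2.5 h, from SEM, SHF, FAM). One point of growing multiplicity. `a_k = finrank (W ⊓ Od k)`. PROOF. Let
`G_k` = the image of `W ⊓ Od k` under `hc k`, of dimension `rho_k = a_k - a_(k+1)`. Assume `rho_t ≤ t`
and suppose `rho_(t+1) > rho_t`. CLAIM: for `(u, v)` and `f ∈ W ⊓ Od (t + 1)` there is `f' ∈ W` with
`f' + u ∂_t f + v ∂_s f ∈ Od (t + 1)`: the conditions `cof i j`, `i + j ≤ t`, on `W`, moved along `(ε u, ε v)`:
`cof i j (sh (ε u) (ε v) f)` is a polynomial in `ε` with the linear term `cof i j` of `u ∂_t f + v ∂_s f`. If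
the functional vector `λ_0(D f)` (`D = u ∂_t + v ∂_s`) were not in `λ_0(W)`, `λ_ε = (cof i j (sh (ε u)
(ε v) ·))_{i+j≤t}`, then for a basis `w_i` of a complement of `W ⊓ Od (t+1)` in `W` the vectors
`λ_0 (w_i), λ_0 (D f)` are independent, and `λ_ε (w_i), λ_ε(f) / ε` is a polynomial family with this value at
`ε = 0`; by SEM there is `ε ≠ 0` with `λ_ε` of rank `> dim W - a_(t+1)` on `W`, so
`finrank (W ⊓ Od(t+1) at (ε u, ε v)) < a_(t+1)`, against `hmin`. So `f' ∈ W` with `λ_0(f' + D f) = 0`; as `D f ∈ Od t`,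
`f' ∈ W ⊓ Od t` and `hc t f' = - D (hc (t+1) f)`. Hence `D G_(t+1) ≤ G_t` for every `D = u ∂_t + v ∂_s`.
As `dim G_(t+1) > dim G_t`, `D` has a kernel on `G_(t+1)`; a form of degree `t + 1` killed by `D` is a multiple
of `(v t - u s)^(t+1)`. So all `(v t - u s)^(t+1)` are in `G_(t+1)`, and so (apply another `D'`) all
`(v t - u s)^t` are in `G_t`; `t + 1` of them are independent (Vandermonde), `rho_t ≥ t + 1`, contradiction. So
`rho_(t+1) ≤ rho_t`. -/
def S_G2R : Prop := ∀ (K : Type) [Field K] [CharZero K] (W : Submodule K (R2 K)) (t : ℕ),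
  FiniteDimensional K W →
  (∀ u v : K, finrank K (W ⊓ Od (t + 1) : Submodule K (R2 K)) ≤
    finrank K (W ⊓ (Od (t + 1)).comap (sh u v).toLinearMap : Submodule K (R2 K))) →
  finrank K (W ⊓ Od t : Submodule K (R2 K)) ≤ finrank K (W ⊓ Od (t + 1) : Submodule K (R2 K)) + t →
  2 * finrank K (W ⊓ Od (t + 1) : Submodule K (R2 K)) ≤
    finrank K (W ⊓ Od t : Submodule K (R2 K)) + finrank K (W ⊓ Od (t + 2) : Submodule K (R2 K))

/-- BR (1 h). Forms and affine polynomials. PROOF. (1) `z(X + P)` with `P = (a, b, 1)`; `del a b z` is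
`tau P z` at `X0 = t, X1 = s, X2 = 0` (algebra homomorphisms agreeing on the variables), so its coefficients
`cof i j` are the coefficients of `tau P z` at the exponents with last entry zero; this is `→`. `←`:
`tau P z` for `z` homogeneous of degree `d`: see Helper18.Shgh (`psi`, `mem_of_psi`, `LI`) or: `z(x + a w, y + b w, w)`
is a form `z'` in `(x, y, w)` of degree `d` and `tau P z = z'(x, y, 1 + w)`, with
`z'(x, y, w) = Σ c_ij x^i y^j w^(d-i-j)`, `c_ij = cof i j (del a b z)`; so if `c_ij = 0` for `i + j < m`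
then all the terms of `z'(x, y, 1 + w)` have degree at least `m`. (2) `del a b z = 0` implies `z' = 0`. (3) algebra
homomorphisms. (4) scaling of a form. (5) finite dimension. -/
def S_BR : Prop := ∀ (K : Type) [Field K] [CharZero K] (d : ℕ),
  (∀ (a b : K) (m : ℕ) (z : MvPolynomial (Fin 3) K), z ∈ Fm K d →
    (z ∈ Van ![a, b, 1] m ↔ del a b z ∈ Od m)) ∧
  (∀ (a b : K) (z : MvPolynomial (Fin 3) K), z ∈ Fm K d → del a b z = 0 → z = 0) ∧
  (∀ (u v a b : K) (z : MvPolynomial (Fin 3) K), sh u v (del a b z) = del (a + u) (b + v) z) ∧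
  (∀ (c : K) (P : Fin 3 → K) (m : ℕ) (z : MvPolynomial (Fin 3) K), c ≠ 0 → z ∈ Fm K d →
    (z ∈ Van (c • P) m ↔ z ∈ Van P m)) ∧
  FiniteDimensional K (Fm K d)

/-- G1F (0.5 h, from G1R, BR). PROOF. `W' = W.map (del a b)`; the map `del a b` is injective on `Fm K d`, so
`finrank (W ⊓ Van ![a, b, 1] k) = finrank (W' ⊓ Od k)`, and the points are `![a + u l, b + v l, 1]`. -/
def S_G1F : Prop := ∀ (K : Type) [Field K] [CharZero K] (d : ℕ) (W : Submodule K (MvPolynomial (Fin 3) K))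
  (a b : K) (m N : ℕ), W ≤ Fm K d →
  finrank K (W ⊓ Van ![a, b, 1] (2 * m + 1) : Submodule K (MvPolynomial (Fin 3) K)) ≤ N →
  finrank K (W ⊓ Van ![a, b, 1] (2 * m) : Submodule K (MvPolynomial (Fin 3) K)) ≤ N + m →
  ∃ Q : Fin 4 → Fin 3 → K,
    finrank K (W ⊓ ⨅ l, Van (Q l) m : Submodule K (MvPolynomial (Fin 3) K)) ≤ N

/-- G2F (0.5 h, from G2R, BR). PROOF as for G1F. -/
def S_G2F : Prop := ∀ (K : Type) [Field K] [CharZero K] (d : ℕ) (W : Submodule K (MvPolynomial (Fin 3) K))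
  (a b : K) (t : ℕ), W ≤ Fm K d →
  (∀ a' b' : K, finrank K (W ⊓ Van ![a, b, 1] (t + 1) : Submodule K (MvPolynomial (Fin 3) K)) ≤
    finrank K (W ⊓ Van ![a', b', 1] (t + 1) : Submodule K (MvPolynomial (Fin 3) K))) →
  finrank K (W ⊓ Van ![a, b, 1] t : Submodule K (MvPolynomial (Fin 3) K)) ≤
    finrank K (W ⊓ Van ![a, b, 1] (t + 1) : Submodule K (MvPolynomial (Fin 3) K)) + t →
  2 * finrank K (W ⊓ Van ![a, b, 1] (t + 1) : Submodule K (MvPolynomial (Fin 3) K)) ≤
    finrank K (W ⊓ Van ![a, b, 1] t : Submodule K (MvPolynomial (Fin 3) K)) +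
    finrank K (W ⊓ Van ![a, b, 1] (t + 2) : Submodule K (MvPolynomial (Fin 3) K))

/-- GEN (1.2 h, from BR (4), and `nGoals.trk : Tate.S_TRK` in Helper97/Nag). A common general position. PROOF.
Enumerate `l` by `Fin n` (a list), put the new point at the last place of `Fin (n + 1)`. For every
`t ∈ T` the minimum `gd d (t ::ₘ l)` is attained (`Nat.sInf_mem`, the set is not empty) at some position, a
multiset `L` with `L.map Prod.snd = t ::ₘ l`; enumerate it compatibly, TRK gives `G_t ≠ 0`. Let `Q` be a position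
with `∏_t G_t ∏_i X (i, 2) ≠ 0` (`MvPolynomial.funext`); scale the last point to `(a, b, 1)` (`Van` does not
change inside `Fm`). -/
def S_GEN : Prop := ∀ (d : ℕ) (l : Multiset ℕ) (T : Finset ℕ),
  ∃ (L : Multiset ((Fin 3 → ℂ) × ℕ)) (a b : ℂ), L.map Prod.snd = l ∧
    ∀ t ∈ T, finrank ℂ (spc d L ⊓ Van ![a, b, 1] t : Submodule ℂ (MvPolynomial (Fin 3) ℂ)) ≤
      gd d (t ::ₘ l)

/-- CNV (0.8 h). Conversions. (1) a generic bound (in the form of `GenDim`, `emptyC`) gives a bound for `gd`;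
(2) a bound for `gd` gives a position in the form used by `nonSp_of` (Helper90/UN/Final). PROOF. (1) choose `P` with
`G ≠ 0` and `P i 2 ≠ 0`; `Van (P i) (m i)` on `Fm` is the power of the ideal (see the proof of `transC`,
Helper97/Nag/Main1, and Helper18.Shgh `LI_le_mI`, `mem_mI_pow`). (2) `Nat.sInf_mem`, enumerate the multiset. -/
def S_CNV : Prop :=
  (∀ (n d N : ℕ) (m : Fin n → ℕ), (∃ G : MvPolynomial (Fin n × Fin 3) ℂ, G ≠ 0 ∧
    ∀ P : Fin n → Fin 3 → ℂ, (∀ i, P i ≠ 0) →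
      MvPolynomial.eval (fun ij : Fin n × Fin 3 => P ij.1 ij.2) G ≠ 0 →
      Module.finrank ℂ
        (↥(MvPolynomial.homogeneousSubmodule (Fin 3) ℂ d ⊓
          ⨅ i : Fin n, Submodule.restrictScalars ℂ
            ((Ideal.span {g : MvPolynomial (Fin 3) ℂ |
                g.IsHomogeneous 1 ∧ MvPolynomial.eval (P i) g = 0}) ^ (m i)
              : Ideal (MvPolynomial (Fin 3) ℂ)))) ≤ N) →
    gd d (Multiset.map m Finset.univ.val) ≤ N) ∧
  (∀ (n m d N : ℕ), gd d (rp n m) ≤ N → ∃ P : Fin n → Fin 3 → ℂ,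
    finrank ℂ (Fm ℂ d ⊓ ⨅ l, Van (P l) m : Submodule ℂ (MvPolynomial (Fin 3) ℂ)) ≤ N)

/-- G1M (0.5 h, from G1F, GEN). PROOF. GEN with `T = {2 m, 2 m + 1}`, G1F for `W = spc d L`; the new multiset is
`L` with the four points `(Q i, m)`. -/
def S_G1M : Prop := ∀ (d m N : ℕ) (l : Multiset ℕ), gd d ((2 * m + 1) ::ₘ l) ≤ N →
  gd d ((2 * m) ::ₘ l) ≤ N + m → gd d (rp 4 m + l) ≤ N

/-- G2M (0.5 h, from G2F, GEN). PROOF. GEN with `T = {t, t + 1, t + 2}`; for `W = spc d L` all the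
`finrank (W ⊓ Van ![a', b', 1] k)` are at least `gd d (k ::ₘ l)`, with equality at `(a, b)` for `k ∈ T`. -/
def S_G2M : Prop := ∀ (d t : ℕ) (l : Multiset ℕ), gd d (t ::ₘ l) ≤ gd d ((t + 1) ::ₘ l) + t →
  2 * gd d ((t + 1) ::ₘ l) ≤ gd d (t ::ₘ l) + gd d ((t + 2) ::ₘ l)

/-- GLUE (0.8 h, from G1M, G2M). PROOF. (ITER): if `gd (i copies of 2m+1, k copies of 2m, l) ≤ N + k m` for all
`i + k = j` then `gd (4 j copies of m, l) ≤ N`: induction on `j` for all `l`: for `j + 1` use the case `j` for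
`l' = rp 4 m + l`, and G1M for `rp i (2m+1) + rp k (2m) + l`. (STEP): `h_i = gd (rp i (2m+1) + rp (j-i) (2m) +
rp s m) ≤ N + (j - i) m` by induction on `i`: let `a_t = gd (t ::ₘ (rp i (2m+1) + rp k (2m) + rp s m))`,
`k = j - i - 1`, so `a_(2m) = h_i`, `a_(2m+1) = h_(i+1)`, `a_(2m+1+k) = 0`. If `a_(2m+1) + m ≤ a_(2m)`: clear.
Otherwise `a_(2m) < a_(2m+1) + m` (so `m ≥ 1`), and by G2M and induction `a_t + 1 ≤ a_(t+1) + m` for all
`t ≥ 2m`, so `a_(2m+1) + k ≤ a_(2m+1+k) + k m = k m`. -/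
def S_GLUE : Prop := ∀ (d m s j N : ℕ), gd d (rp j (2 * m) + rp s m) ≤ N + j * m →
  (∀ i k, i + k + 1 = j → gd d ((2 * m + k + 1) ::ₘ (rp i (2 * m + 1) + rp k (2 * m) + rp s m)) = 0) →
  gd d (rp (4 * j + s) m) ≤ N

end Pool.Agent.Helper27.UC
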