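import Pool.Agent.Helper27.UC.Fin3
import Pool.Agent.Helper27.UC.Core
import Pool.Agent.Helper27.UC.CaseK
import Pool.Agent.Helper25.UC.GLUE3
import Pool.Agent.Helper62.UC.EMG
import Pool.Agent.Helper91.UC.RGG
import Pool.Agent.Helper26.UC.MON
import Pool.Agent.Helper15.UC.GDG
import Pool.Agent.Helper63.UC.PULL
import Pool.Agent.Helper17.UC.INTM
import Pool.Agent.Helper26.UC.HEB
import Pool.Agent.Helper62.UC.EM3
import Pool.Agent.Helper97.UC.RG3
import Pool.Agent.Helper36.UC.LEV2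
import Pool.Agent.Helper90.UC.DRP2
import Pool.Agent.Helper72.UC.VOI2
import Pool.Agent.Helper45.UC.EMPT2
import Pool.Agent.Helper79.UC.ALLH
import Pool.Agent.Helper95.UC.FQ
import Pool.Agent.Helper13.UC.SPLT
import Pool.Agent.Helper45.UC.ONEH
import Pool.Agent.Helper62.UC.TGQ

/-!
PROJECT UC: the final statement (helper27).
-/

set_option autoImplicit false

noncomputable section

namespace Pool.Agent.Helper27.UC

open Pool.Agent.Helper1.All

theorem glue3' : S_GLUE3 := Helper25.UC.GLUE3.t g1m g2m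

theorem em3 : S_EM3 := Helper62.UC.EM3.t (Helper62.UC.EMG.t cnv) Helper26.UC.HEB.t

theorem rg3 : S_RG3 := Helper97.UC.RG3.t (Helper91.UC.RGG.t cnv) Helper26.UC.HEB.t

theorem lev2 : S_LEV2 :=
  Helper36.UC.LEV2.t glue3' rg3 em3 Helper26.UC.HEB.t Helper63.UC.PULL.t

theorem drp2 : S_DRP2 :=
  Helper90.UC.DRP2.t (Helper17.UC.INTM.t g2m) rg3 em3 Helper26.UC.HEB.t

theorem voi2 : S_VOI2 := Helper72.UC.VOI2.t em3 Helper26.UC.HEB.t Helper63.UC.PULL.t

theorem empt2 : S_EMPT2 := Helper45.UC.EMPT2.t glue3' drp2 voi2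

theorem oneh (hH : S_HES) : S_ONEH :=
  Helper45.UC.ONEH.t glue3' lev2 empt2 Helper13.UC.SPLT.t hH Helper26.UC.HEB.t

theorem final3_of (hH : S_HES) : ∀ (n : ℕ) (m : Fin n → ℕ), ∃ d₀ : ℕ, ∀ d : ℕ,
    (CaseE n m d₀ d ∨ CaseQ n m ∨ CaseK n m) → GenDim d m (max (vdim d m) 0) := by
  intro n m
  obtain ⟨d₀, h⟩ := fin3 (Helper95.UC.FQ.t (Helper79.UC.ALLH.t (oneh hH) Helper26.UC.MON.t)
    (Helper62.UC.TGQ.t Helper13.UC.SPLT.t) Helper15.UC.GDG.t) n m
  refine ⟨d₀, fun d => ?_⟩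
  rintro (h1 | h1 | h1)
  · exact h d (Or.inl h1)
  · exact h d (Or.inr h1)
  · exact h d (Or.inr (caseQ_of_caseK n m h1))

end Pool.Agent.Helper27.UC
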