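import Pool.Agent.Helper97.Tate.Defs

/-!
PROJECT UC (MP_d3128a_ag): the linear systems `L(d; m^n)` without exceptional degrees, by collisions of
four points. Definitions (helper27).
-/

set_option autoImplicit false

noncomputable section

namespace Pool.Agent.Helper27.UC

open Polynomial Module Pool.Agent.Helper97.Tate

/-- polynomials in two variables: `t` is `C X`, `s` is `X` -/
abbrev R2 (K : Type) [Field K] := Polynomial (Polynomial K)

section

variable {K : Type} [Field K]

/-- the coefficient of `t ^ i * s ^ j` -/
def cof (i j : ℕ) (f : R2 K) : K := (f.coeff j).coeff i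

/-- the substitution `t ↦ A`, `s ↦ B` -/
def subt (A B : R2 K) : R2 K →ₐ[K] R2 K :=
  Polynomial.eval₂AlgHom (Polynomial.aeval A : Polynomial K →ₐ[K] R2 K) B (fun _ => Commute.all _ _)

/-- the translation `t ↦ t + u`, `s ↦ s + v` -/
def sh (u v : K) : R2 K →ₐ[K] R2 K := subt (C X + C (C u)) (X + C (C v))

/-- the linear form `p * t + q * s` -/
def lin (p q : K) : R2 K := C (C p * X) + C (C q) * X

/-- order at least `m` at the origin -/
def Od (m : ℕ) : Submodule K (R2 K) where
  carrier := {f | ∀ i j, i + j < m → cof i j f = 0}
  add_mem' := by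
    intro a b ha hb i j h
    have h1 := ha i j h
    have h2 := hb i j h
    unfold cof at *
    rw [Polynomial.coeff_add, Polynomial.coeff_add, h1, h2, add_zero]
  zero_mem' := by
    intro i j _
    unfold cof
    simp
  smul_mem' := by
    intro c a ha i j h
    have h1 := ha i j h
    unfold cof at *
    rw [Polynomial.coeff_smul, Polynomial.coeff_smul, h1, smul_zero]

/-- total degree at most `D` -/
def De (D : ℕ) : Submodule K (R2 K) where
  carrier := {f | ∀ i j, D < i + j → cof i j f = 0}
  add_mem' := by
    intro a b ha hb i j h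
    have h1 := ha i j h
    have h2 := hb i j h
    unfold cof at *
    rw [Polynomial.coeff_add, Polynomial.coeff_add, h1, h2, add_zero]
  zero_mem' := by
    intro i j _
    unfold cof
    simp
  smul_mem' := by
    intro c a ha i j h
    have h1 := ha i j h
    unfold cof at *
    rw [Polynomial.coeff_smul, Polynomial.coeff_smul, h1, smul_zero]

/-- the homogeneous part of degree `k` -/
def hc (k : ℕ) : R2 K →ₗ[K] R2 K where
  toFun f := ∑ j ∈ Finset.range (k + 1),
    Polynomial.monomial j (Polynomial.monomial (k - j) (cof (k - j) j f))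
  map_add' f g := by
    rw [← Finset.sum_add_distrib]
    refine Finset.sum_congr rfl fun j _ => ?_
    unfold cof
    rw [Polynomial.coeff_add, Polynomial.coeff_add, map_add, map_add]
  map_smul' c f := by
    rw [RingHom.id_apply, Finset.smul_sum]
    refine Finset.sum_congr rfl fun j _ => ?_
    unfold cof
    rw [Polynomial.coeff_smul, Polynomial.coeff_smul, Polynomial.smul_monomial,
      Polynomial.smul_monomial]

/-- the affine form at the point `(a, b, 1)`: `z ↦ z(a + t, b + s, 1)` -/
def del (a b : K) : MvPolynomial (Fin 3) K →ₐ[K] R2 K :=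
  MvPolynomial.aeval ![C X + C (C a), X + C (C b), 1]

/-- the forms of degree `d` with the multiplicities of `L` -/
def spc (d : ℕ) (L : Multiset ((Fin 3 → K) × ℕ)) : Submodule K (MvPolynomial (Fin 3) K) :=
  Fm K d ⊓ ⨅ p ∈ L, Van p.1 p.2

end

/-- the generic dimension of the forms of degree `d` with multiplicities `l` over the complex numbers
(the minimum over all the positions) -/
def gd (d : ℕ) (l : Multiset ℕ) : ℕ :=
  sInf {N | ∃ L : Multiset ((Fin 3 → ℂ) × ℕ), L.map Prod.snd = l ∧ finrank ℂ (spc d L) ≤ N}

/-- the multiset of `i` copies of `a` -/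
abbrev rp (i a : ℕ) : Multiset ℕ := Multiset.replicate i a

end Pool.Agent.Helper27.UC
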