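import Pool.Agent.Helper27.UC.Core
import Pool.Agent.Helper90.UC.FINB
import Pool.Agent.Helper90.UN.All

/-!
PROJECT UC: the homogeneous theorem (helper27).
-/

set_option autoImplicit false

noncomputable section

namespace Pool.Agent.Helper27.UC

/-- equal multiplicities, no exceptional degree -/
theorem equalAll (n m d : ℕ) (hn : 65 ≤ n ∨ (4 ∣ n ∧ 40 ≤ n)) : Helper90.UN.NonSp n m d :=
  Helper90.UC.nonSpAll cnv g1m g2m Helper90.UN.uGoals n m d hn

end Pool.Agent.Helper27.UC
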