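import Pool.Agent.Helper27.UC.Goals5

/-!
PROJECT UC (MP_d3128a_ag), the ALMOST EQUAL clause: `n` large, at most `√n / C` different multiplicities,
`max - min ≤ n / C`, `max ≤ 2 min`: non-special for every degree. Goals with proofs in words (helper27).
Small multiplicities (`m ≤ n ^ 5`) are covered by BalancedSystems (BAL), the others by two levels of gluing with
the nef class of weights `1` (points), `2` (groups of four), `4` (groups of sixteen).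
-/

set_option autoImplicit false

noncomputable section

namespace Pool.Agent.Helper27.UC

open Module Pool.Agent.Helper97.Tate Pool.Agent.Helper1.All

/-- SPLIT (0.4 h). PROOF. Induction on `L.card` (or a maximal `g`): if `L.card ≤ s + 3 q + 4` take `g = 0`. Otherwise
`L.card > 3 q`, so some `v` has `L.count v ≥ 4` (`L.card = ∑ v ∈ L.toFinset, L.count v`); apply the induction
to `L - rp 4 v` (its card is `≥ s`, its `toFinset` is a subset) and add `v` to `g`. -/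
def S_SPLIT : Prop := ∀ (L : Multiset ℕ) (q s : ℕ), L.toFinset.card ≤ q → s ≤ Multiset.card L →
  ∃ g l : Multiset ℕ, 4 • g + l = L ∧ s ≤ Multiset.card l ∧ Multiset.card l ≤ s + 3 * q + 4

/-- BLK (1 h). Rows of nearly equal squares. PROOF. Sort `G` (descending list `x_0 ≥ x_1 ≥ ...`), `r = card / t`,
tag the element `i` by `min (i / t) (r - 1)`: the blocks have `t` elements, the last one between `t` and
`2 t - 1`. `a l` = the first (largest) element of the block plus one. For a block with largest element `P` and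
smallest element `p`: `N l (a l)^2 - ∑ (x+1)^2 ≤ N l ((P+1)^2 - (p+1)^2) ≤ 2 t (P - p) (2 M + 2)` and
`∑ (P - p) ≤ B` (telescoping: `p` of a block is at least `P` of the next one). (Induction on `card G`
instead of sorting: remove the `t` largest elements while `card ≥ 2 t`; stronger statement with the
largest element of the rest.) -/
def S_BLK : Prop := ∀ (G : Multiset ℕ) (t M B : ℕ), 1 ≤ t → t ≤ Multiset.card G →
  (∀ x ∈ G, x ≤ M ∧ M ≤ x + B) →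
  ∃ (r : ℕ) (T : Multiset (ℕ × ℕ)) (a N : ℕ → ℕ), 1 ≤ r ∧ r * t ≤ Multiset.card G ∧
    T.map Prod.snd = G ∧ (∀ p ∈ T, p.1 < r ∧ p.2 + 1 ≤ a p.1) ∧
    (∀ l < r, Multiset.card (T.filter (fun p => p.1 = l)) = N l ∧ t ≤ N l ∧ N l < 2 * t ∧
      M + 1 ≤ a l + B ∧ a l ≤ M + 1) ∧
    ∑ l ∈ Finset.range r, N l * a l ^ 2 ≤ (G.map fun x => (x + 1) ^ 2).sum + 2 * t * B * (2 * M + 2)

/-- the hypotheses: `L` has `n` elements between `m - b` and `m`, at most `q` different ones -/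
def HN (n m b q : ℕ) (L : Multiset ℕ) : Prop :=
  Multiset.card L = n ∧ (∀ v ∈ L, v ≤ m ∧ m ≤ v + b) ∧ L.toFinset.card ≤ q ∧
    10 ^ 10 ≤ n ∧ (10000 * q) ^ 2 ≤ n ∧ 10000 * b ≤ n ∧ n ^ 5 ≤ m

/-- EMN (0.7 h). Emptiness, arithmetic. `M = L.sum`, `Q = ∑ v ^ 2`. PROOF. `n Q ≤ M ^ 2 + n ^ 2 b ^ 2` (`n Q - M ^ 2`
is half the sum of `(v - v')^2` over the pairs; or: with `v = m - e`, `0 ≤ e ≤ b`, `n ∑ e ^ 2 ≤ n ^ 2 b ^ 2`).
`(2 d + 1)^2 < 4 Q + 4 M + 1`, so `n (2 d + 1)^2 ≤ (2 M + n)^2 + 4 n^2 b^2 + n ≤ (2 M + n + 1)^2`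
(`M ≥ n (m - b) ≥ n ^ 6 / 2 ≥ 4 n ^ 2 b ^ 2 + n`), `2 √n d ≤ 2 M + n + 1 - √n < 2 M + 4 j - 12` as
`4 j = n - s`, `s < √n / 5`. -/
def S_EMN : Prop := ∀ (n m b q d j s : ℕ) (L : Multiset ℕ), HN n m b q L → n = 4 * j + s →
  25 * s ^ 2 ≤ n → d * (d + 1) < (L.map fun v => v ^ 2).sum + L.sum →
  n * d ^ 2 < (L.sum + 2 * j - 6) ^ 2

/-- EMP1 (0.8 h, from EMG, EMN). Emptiness, first level. PROOF. EMG with `k = 10`, `D = n`, two rows: weight `2` for
the group (`j` elements), weight `1` for `l` (`s` elements): `(10 * 2) ^ 2 ≤ n`, `n ≤ (10 s) ^ 2`,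
`n ≤ (20 j) ^ 2`. `W = L.sum + 2 card A + 2 (1 + p)`, `p = (N + B.sum) / u`; `m (1 + p) ≥ u (1 + p) ≥ B.sum ≥
card B (m - b)`, so `1 + p ≥ card B - card B b / m > card B - 1` (`card B * b ≤ n ^ 2 < m`), so
`W ≥ L.sum + 2 (j - 1)`. -/
def S_EMP1 : Prop := ∀ (n m b q d N : ℕ) (g l : Multiset ℕ), HN n m b q (4 • g + l) →
  25 * Multiset.card l ^ 2 ≤ n → n ≤ 100 * Multiset.card l ^ 2 →
  d * (d + 1) < ((4 • g + l).map fun v => v ^ 2).sum + (4 • g + l).sum →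
  ∀ (A B : Multiset ℕ) (u : ℕ), u ::ₘ (A + B) = g →
    gd d ((2 * u + 1 + (N + B.sum) / u) ::ₘ
      (A.map (fun v => 2 * v + 1) + B.map (fun v => 2 * v) + l)) = 0

/-- EMP2 (0.8 h, from EMG, EMN). Emptiness, second level. PROOF. EMG with `k = 10`, `D = n`, three rows: weight `4` for
the group (`card h` elements), `2` for `l'` (multiplicities `2 v`), `1` for `l`. `W = L.sum + 4 card A + 4 (1 + p)`,
`p = (N + B.sum) / u`, `u ≤ 2 m`, `N ≥ g.sum ≥ (card g) (m - b)`, `g = 4 • h + l'`; `2 m (1 + p) ≥ card g (m - b)`,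
`4 (1 + p) ≥ 2 card g - 2`. -/
def S_EMP2 : Prop := ∀ (n m b q d N : ℕ) (h l' l : Multiset ℕ), HN n m b q (4 • (4 • h + l') + l) →
  25 * Multiset.card l ^ 2 ≤ n → n ≤ 100 * Multiset.card l ^ 2 →
  25 * Multiset.card l' ^ 2 ≤ n → n ≤ 400 * Multiset.card l' ^ 2 → (4 • h + l').sum ≤ N →
  d * (d + 1) < ((4 • (4 • h + l') + l).map fun v => v ^ 2).sum + (4 • (4 • h + l') + l).sum →
  ∀ (A B : Multiset ℕ) (u : ℕ), u ::ₘ (A + B) = h.map (fun v => 2 * v) →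
    gd d ((2 * u + 1 + (N + B.sum) / u) ::ₘ
      (A.map (fun v => 2 * v + 1) + B.map (fun v => 2 * v) + (l'.map (fun v => 2 * v) + l))) = 0

/-- REGN (1.2 h, from RGG, BLK). Regularity. PROOF. BLK with `t = 20` for the three multisets `h.map (4 ·)`
(`M = 4 m`, `B = 4 b`), `l'.map (2 ·)` (`2 m`, `2 b`), `l` (`m`, `b`); RGG with `ι = ℕ × ℕ` (level, tag),
`k = √n / 10` (natural square root and division). `(d + 2)(d + 3) ≥ Q + M`, `M = L.sum ≥ 0.99 n m`, so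
`(d + 3)^2 > Q + M`, `d + 3 > 0.99 √n m`; `d (d + 1) < Q + M` so `d + 3 ≤ 1.01 √n m`. Heights:
`k (4 m + 1) ≤ 0.41 √n m`. Widths: `k * 20 * 0.99 m ≥ 1.9 √n m`. Rows: at most `(n / 16 + √n) / 20`, twice this is
`≤ (k - 1) (k - 2)` (about `n / 100`). Sum of the squares: `∑_h (4v+1)^2 + ∑_l' (2v+1)^2 + ∑_l (v+1)^2 =
Q + M / 2 + 2 ∑_l' v + 1.5 ∑_l v + cards ≤ Q + M / 2 + √n m + n`, waste
`40 b (4 (8m+2) + 2 (4m+2) + (2m+2)) ≤ 1800 b m ≤ 0.18 n m`; the total is `< Q + M`. Binomials: for `v ∈ h`: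
`C(4v+1, 2) + 4 v + 2 v = 16 C(v+1, 2)`; for `v ∈ l'`: `C(2v+1, 2) + v = 4 C(v+1, 2)`. -/
def S_REGN : Prop := ∀ (n m b q d N : ℕ) (h l' l : Multiset ℕ), HN n m b q (4 • (4 • h + l') + l) →
  25 * Multiset.card l ^ 2 ≤ n → n ≤ 100 * Multiset.card l ^ 2 →
  25 * Multiset.card l' ^ 2 ≤ n → n ≤ 400 * Multiset.card l' ^ 2 →
  d * (d + 1) < ((4 • (4 • h + l') + l).map fun v => v ^ 2).sum + (4 • (4 • h + l') + l).sum →
  ((4 • (4 • h + l') + l).map fun v => v ^ 2).sum + (4 • (4 • h + l') + l).sum ≤ (d + 2) * (d + 3) →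
  (d + 2).choose 2 ≤ N + ((4 • (4 • h + l') + l).map fun v => (v + 1).choose 2).sum →
  gd d ((h.map (fun v => 2 * v)).map (fun v => 2 * v) + (l'.map (fun v => 2 * v) + l)) ≤
    N + (4 • h + l').sum + (h.map (fun v => 2 * v)).sum

/-- ONEN (0.7 h, from SPLIT, GLUE3, EMP1, EMP2, REGN). PROOF. `s = √n / 10 + 1`; SPLIT for `L` gives `g, l`; SPLIT for
`g` gives `h, l'`; cards between `√n / 10` and `√n / 10 + 3 q + 5 ≤ √n / 5`. GLUE3 with `N, g, l`; its first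
hypothesis by GLUE3 with `N + g.sum, h.map (2 ·), l'.map (2 ·) + l` (`g.map (2 ·) = 4 • h.map (2 ·) +
l'.map (2 ·)`). All the elements are positive (`m ≥ n ^ 5 > b`). -/
def S_ONEN : Prop := ∀ (n m b q d : ℕ) (L : Multiset ℕ), HN n m b q L →
  d * (d + 1) < (L.map fun v => v ^ 2).sum + L.sum →
  (L.map fun v => v ^ 2).sum + L.sum ≤ (d + 2) * (d + 3) →
  gd d L ≤ (d + 2).choose 2 - (L.map fun v => (v + 1).choose 2).sum

/-- ALLN (0.5 h, from ONEN, MON). As ALLW. -/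
def S_ALLN : Prop := ∀ (n m b q d : ℕ) (L : Multiset ℕ), HN n m b q L →
  gd d L ≤ (d + 2).choose 2 - (L.map fun v => (v + 1).choose 2).sum

/-- BAL (1 h, from CNV). Small multiplicities. PROOF. `Helper94.AM.mainC` as in
Results/MP_d3128a_ag/BalancedSystems.lean (hypothesis (A) with the exponent `1/3`) for the sequence of the elements
of `L` sorted in decreasing order, then zeros: `R ≥ √(∑ v (v+1)) ≥ √n m / 2`, `C m ≤ R`,
`θ = (R / m) ^ (1/3) ≥ (√n / 2) ^ (1/3)`, `m ≤ n ^ 5 ≤ exp (c θ)` for `n ≥ N1`. CNV (1). (`m = 0`: `L` has only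
zeros, the same theorem or `gd_mono`.) -/
def S_BAL : Prop := ∃ N1 : ℕ, ∀ (L : Multiset ℕ) (n m d : ℕ), Multiset.card L = n → N1 ≤ n →
  (∀ v ∈ L, v ≤ m ∧ m ≤ 2 * v) → m ≤ n ^ 5 →
  gd d L ≤ (d + 2).choose 2 - (L.map fun v => (v + 1).choose 2).sum

/-- FN (0.5 h, from ALLN, BAL, GDG). PROOF. `C = max (N1, 10 ^ 10)`, `m = max`, `b = max - min`. If `m ≤ n ^ 5`
BAL, otherwise ALLN. -/
def S_FN : Prop := ∃ C : ℕ, ∀ (n d : ℕ) (m : Fin n → ℕ), C ≤ n →
  (C * (Finset.univ.image m).card) ^ 2 ≤ n →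
  (∀ i j, C * (m i - m j) ≤ n ∧ m i ≤ 2 * m j) →
  GenDim d m (max (vdim d m) 0)

end Pool.Agent.Helper27.UC
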