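import Pool.Agent.Helper27.UC.EqualA
import Pool.Agent.Helper27.UC.Goals6

/-!
PROJECT UC: the final statement from the three clauses (helper27).
-/

set_option autoImplicit false

noncomputable section

namespace Pool.Agent.Helper27.UC

open Pool.Agent.Helper1.All Pool.Agent.Helper90.UN

/-- `NonSp` for constant multiplicities -/
theorem genDim_of_nonSp (n μ d : ℕ) (m : Fin n → ℕ) (hm : ∀ i, m i = μ) (h : NonSp n μ d) :
    GenDim d m (max (vdim d m) 0) := by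
  obtain rfl : m = fun _ => μ := funext hm
  obtain ⟨G, hG0, hG⟩ := h
  refine ⟨G, hG0, fun P hP hGP => ?_⟩
  have h1 := hG P hP hGP
  have h2 : vdim d (fun _ : Fin n => μ) =
      (Nat.choose (d + 2) 2 : ℤ) - n * (Nat.choose (μ + 1) 2 : ℤ) := by
    unfold vdim
    rw [Finset.sum_const, Finset.card_univ, Fintype.card_fin, nsmul_eq_mul]
  rw [h2]
  exact h1

/-- equal multiplicities -/
def CaseE (n : ℕ) (m : Fin n → ℕ) (d₀ d : ℕ) : Prop :=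
  ∃ μ : ℕ, (∀ i, m i = μ) ∧ (65 ≤ n ∨ (4 ∣ n ∧ 40 ≤ n) ∨
    (10 ≤ n ∧ (d ≠ d₀ ∨ IsSquare n ∨ d ^ 2 ≤ n * μ ^ 2 ∨ n * (μ + 1) ^ 2 ≤ (d + 3) ^ 2 ∨
      (√(n : ℝ) + 1) * μ ≤
        |((Nat.choose (d + 2) 2 : ℝ) - n * (Nat.choose (μ + 1) 2 : ℝ))|)))

/-- few multiplicities, each repeated many times -/
def CaseF (n : ℕ) (m : Fin n → ℕ) : Prop :=
  ∃ c : ℕ, 1 ≤ c ∧ ((Finset.univ.image m).filter (fun x => 2 ≤ x)).card ≤ c ∧
    ∀ i, 2 ≤ m i →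
      (100 * c * m i) ^ 2 ≤ ∑ i ∈ Finset.univ.filter (fun i => 2 ≤ m i), m i ^ 2 ∧
      ∑ i ∈ Finset.univ.filter (fun i => 2 ≤ m i), m i ^ 2 ≤
        (c * (m i * (Finset.univ.filter (fun j => m j = m i)).card)) ^ 2

/-- almost equal multiplicities -/
def CaseG (C n : ℕ) (m : Fin n → ℕ) : Prop :=
  C ≤ n ∧ (C * (Finset.univ.image m).card) ^ 2 ≤ n ∧ ∀ i j, C * (m i - m j) ≤ n ∧ m i ≤ 2 * m j

theorem fin (hF : S_FW) (hN : S_FN) : ∃ C : ℕ, ∀ (n : ℕ) (m : Fin n → ℕ), ∃ d₀ : ℕ, ∀ d : ℕ,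
    (CaseE n m d₀ d ∨ CaseF n m ∨ CaseG C n m) → GenDim d m (max (vdim d m) 0) := by
  obtain ⟨C, hC⟩ := hN
  refine ⟨C, fun n m => ?_⟩
  have hd : ∃ d₀ : ℕ, ∀ d, CaseE n m d₀ d → GenDim d m (max (vdim d m) 0) := by
    by_cases hμ : ∃ μ : ℕ, (∀ i, m i = μ) ∧ 10 ≤ n
    · obtain ⟨μ, hμ, hn⟩ := hμ
      obtain ⟨d₀, h⟩ := Helper90.UN.un Helper90.UN.uGoals n μ hn
      refine ⟨d₀, fun d => ?_⟩
      rintro ⟨μ', hμ', h1⟩
      have h2 : μ' = μ := by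
        have i0 : Fin n := ⟨0, by omega⟩
        rw [← hμ i0, hμ' i0]
      subst h2
      apply genDim_of_nonSp n μ' d m hμ
      rcases h1 with h1 | h1 | ⟨-, h1⟩
      · exact equalAll n μ' d (Or.inl h1)
      · exact equalAll n μ' d (Or.inr h1)
      · exact h d h1
    · refine ⟨0, fun d => ?_⟩
      rintro ⟨μ', hμ', h1⟩
      exfalso
      apply hμ
      refine ⟨μ', hμ', ?_⟩
      rcases h1 with h1 | h1 | ⟨h1, -⟩ <;> omega
  obtain ⟨d₀, hd₀⟩ := hd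
  refine ⟨d₀, fun d => ?_⟩
  rintro (h | ⟨c, hc, h1, h2⟩ | ⟨h1, h2, h3⟩)
  · exact hd₀ d h
  · exact hF c n d m hc h1 h2
  · exact hC n d m h1 h2 h3

end Pool.Agent.Helper27.UC
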