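import Pool.Agent.Helper27.UC.Goals7

/-!
PROJECT UC part 6 (MP_d3128a_ag), the REPEATED clause in its FINAL, EXPLICIT form (helper27). It replaces part 5 (no
`K`, no `n ≤ m`, no BALK): same argument, same shapes as in Goals7.lean, other hypotheses. `c ≥ 1` is a parameter:
every value `x` satisfies `100 c x ≤ √Q` and occurs `N` times with `√Q ≤ c x N`, at most `c ^ 2` values. Facts used
everywhere (HEB): `M ≥ 100 c √Q`, `2 M ≤ Q`, `M / 17 ≤ h.sum ≤ M / 16`, every multiplicity `≤ M / 10 ^ 4`. RULE: a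
system is EMPTY if `∑ weight * multiplicity ≥ Q + 0.55 M` (EM3), and `4 v`, `2 v`, `y` is REGULAR (RG3).
-/

set_option autoImplicit false

noncomputable section

namespace Pool.Agent.Helper27.UC

open Module Pool.Agent.Helper97.Tate Pool.Agent.Helper1.All

/-- the hypotheses on a decomposition (explicit version) -/
def HE (c Q M : ℕ) (h l : Multiset ℕ) (P : Multiset (ℕ × ℕ)) : Prop :=
  1 ≤ c ∧ Q = qs h l P ∧ M = ms h l P ∧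
    (∀ v ∈ h, 2 ≤ v ∧ (100 * c * v) ^ 2 ≤ Q ∧ 2 * Q ≤ (20 * c * (4 * v * h.count v)) ^ 2) ∧
    (∀ v ∈ l, 2 ≤ v ∧ (100 * c * v) ^ 2 ≤ Q ∧ 2 * Q ≤ (20 * c * (2 * v * l.count v)) ^ 2) ∧
    (∀ p ∈ P, 2 ≤ p.2 ∧ p.2 ≤ p.1 ∧ (100 * c * p.1) ^ 2 ≤ Q ∧
      2 * Q ≤ (20 * c * (p.1 * (P.map Prod.fst).count p.1)) ^ 2) ∧
    h.toFinset.card ≤ c ^ 2 ∧ l.toFinset.card ≤ c ^ 2 ∧ (P.map Prod.fst).toFinset.card ≤ c ^ 2 ∧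
    0 < M ∧ 400 * l.sum ≤ M ∧ 400 * (P.map Prod.snd).sum ≤ M ∧
    400 * (P.map fun p => p.1 * (p.1 - p.2)).sum ≤ M

/-- HEB (0.5 h). PROOF. Every multiplicity `y` has `100 c y ≤ √Q`, so `Q = ∑ y^2 ≤ √Q M / (100 c)`, `M ≥ 100 c √Q`,
`10^4 y ≤ 10^4 c^2 y ≤ M`. `2 y ≤ y^2`. `16 h.sum = M - 4 l.sum - ∑_P y ≥ (1 - 5/400) M ≥ 16/17 M`. -/
def S_HEB : Prop := ∀ (c Q M : ℕ) (h l : Multiset ℕ) (P : Multiset (ℕ × ℕ)), HE c Q M h l P →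
  10 ^ 4 * c ^ 2 * Q ≤ M ^ 2 ∧ 2 * M ≤ Q ∧ M ≤ 17 * h.sum ∧ 16 * h.sum ≤ M ∧
  (∀ v ∈ h, 10 ^ 4 * v ≤ M) ∧ (∀ v ∈ l, 10 ^ 4 * v ≤ M) ∧ (∀ p ∈ P, 10 ^ 4 * p.1 ≤ M)

/-- SPLT (0.6 h). SPL2 with a function `T` of the value. PROOF. For a value `v` let `α = A.count v`, `β = B.count v`; one
of them, say `α`, is `≥ T v + 4`. `A2` has `(α - T v) / 4` copies of `v`, `B2` has `β / 4` copies; `α - 4 i` is in
`[T, T + 3]`, `β - 4 j` in `[0, 3]`. -/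
def S_SPLT : Prop := ∀ (T : ℕ → ℕ) (A B : Multiset ℕ), (∀ v ∈ A + B, 2 * T v + 7 ≤ (A + B).count v) →
  ∃ A2 A0 B2 B0 : Multiset ℕ, A = 4 • A2 + A0 ∧ B = 4 • B2 + B0 ∧
    ∀ v ∈ A + B, T v ≤ (A0 + B0).count v ∧ (A0 + B0).count v ≤ T v + 6

/-- EM3 (1 h, from EMG, HEB). Emptiness. PROOF. As EM2: EMG with `ι = ℕ × ℕ`, `T = Th.map ((2, v), mult) +
Tl.map ((1, v), mult) + P.map ((0, x), y)`, `a (j, v) = 2 ^ j * v`, `I` = the tags which occur, `k = 20 c`.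
`2 |I| ≤ 6 c^2 ≤ (20 c - 1) (20 c - 2)`. `D = 16 ∑_h v^2 + 4 ∑_l v^2 + ∑_P x^2`, `Q ≤ D ≤ Q + 2 ∑_P x (x - y) ≤ Q + M / 200
≤ 2 Q`. `(k a)^2 ≤ (80 c v)^2 ≤ Q`, `D ≤ 2 Q ≤ (k N a)^2` (hypotheses; `N ≥ 2` follows: `k a < √Q`). Last: `D d^2 <
(Q + M / 200) (Q + M) ≤ (Q + 0.55 M)^2 ≤ wt^2`. -/
def S_EM3 : Prop := ∀ (c Q M d : ℕ) (h l : Multiset ℕ) (P Th Tl : Multiset (ℕ × ℕ)), HE c Q M h l P →
  d * (d + 1) < Q + M → Th.map Prod.fst = h → Tl.map Prod.fst = l →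
  20 * Q + 11 * M ≤ 20 * wt Th Tl P →
  gd d (Th.map Prod.snd + Tl.map Prod.snd + P.map Prod.snd) = 0

/-- RG3 (1 h, from RGG, HEB). Regularity. PROOF. RGG with `ι = ℕ × ℕ`, `T = h.map ((2, v), 4 v) + l.map ((1, v), 2 v) +
P.map ((0, x), y)`, `a (j, v) = 2 ^ j * v + 1`, `k = 20 c`. `k (4 v + 1) ≤ 90 c v < √Q < d + 3` (`v ≥ 2`; `(d + 3)^2 > Q + M`).
`d (d + 1) < Q + M ≤ 1.5 Q`, so `(d + 3)^2 ≤ 2 Q ≤ (k N a)^2` (`√Q ≥ 200`). `∑ N a^2 = D + 8 h.sum + 4 l.sum + 2 ∑_P x +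
|h| + |l| + |P|`, `D ≤ Q + M / 200`, `8 h.sum ≤ M / 2`, `4 l.sum ≤ M / 100`, `∑_P x ≤ ∑ y + ∑ x (x - y) ≤ M / 200`, the
numbers of points are at most half the sums: `|h| ≤ M / 32` etc.: less than `Q + M < (d + 3)^2`. Binomials:
`C(4v+1, 2) + 6 v = 16 C(v+1, 2)`, `C(2v+1, 2) + v = 4 C(v+1, 2)`. -/
def S_RG3 : Prop := ∀ (c Q M d N : ℕ) (h l : Multiset ℕ) (P : Multiset (ℕ × ℕ)), HE c Q M h l P →
  CR d Q M → (d + 2).choose 2 ≤ N + bs h l P →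
  gd d (h.map (fun v => 4 * v) + l.map (fun v => 2 * v) + P.map Prod.snd) ≤ N + 6 * h.sum + l.sum

/-- LEV2 (0.6 h, from GLUE3, RG3, EM3, HEB, PULL). PROOF. As LEV1: `wt ≥ Q + 12 h.sum - 4 u'`, `12 h.sum ≥ 0.7 M`,
`4 u' ≤ 0.01 M`. -/
def S_LEV2 : Prop := ∀ (c Q M d N : ℕ) (h l : Multiset ℕ) (P : Multiset (ℕ × ℕ)), HE c Q M h l P →
  CR d Q M → (d + 2).choose 2 ≤ N + bs h l P →
  gd d ((4 • h + l).map (fun v => 2 * v) + P.map Prod.snd) ≤ N + (4 • h + l).sum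

/-- DRP2 (1 h, from INTM, RG3, EM3, HEB). PROOF. As DRP (`Z = 4 B2.sum + B0.sum`, `r = Z / u`, `g = 3 u / 2`).
(a) `3 g ≥ 4 u` (`u ≥ 2`), so `3 r g ≥ 4 (Z - u)`. `N + 6 h.sum + l.sum ≤ X + 6 A2.sum + r g`: the right side is
`≥ 2 h.sum + 6 A2.sum + 16/3 B2.sum - 4/3 u ≥ 6 h.sum + 4/3 h.sum - 4/3 u`, `4/3 h.sum ≥ 0.078 M`, `N ≤ M / 50`.
(b) emptiness for INTM on `A2`: `wt ≥ Q + 8 A2.sum + 4/3 X1 - 4 u1`, `X1 ≥ 2 h.sum + 16/3 B2.sum - 4/3 u`, so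
`wt ≥ Q + 88/9 h.sum - 6 max`, `88/9 h.sum ≥ 0.575 M` (with `h.sum ≥ M / 17`).
(c) emptiness for the special point: `wt ≥ Q + 8 A2.sum + 2 Z + 8/3 h.sum - 4 u ≥ Q + 32/3 h.sum - 4 u`. -/
def S_DRP2 : Prop := ∀ (c Q M d N u : ℕ) (A2 A0 B2 B0 : Multiset ℕ) (P : Multiset (ℕ × ℕ)),
  HE c Q M (A2 + B2) (u ::ₘ (A0 + B0)) P → CR d Q M →
  (d + 2).choose 2 ≤ N + bs (A2 + B2) (u ::ₘ (A0 + B0)) P → 50 * N ≤ M →
  gd d (A2.map (fun v => 4 * v + 2) + B2.map (fun v => 4 * v) +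
    ((2 * u + (4 * B2.sum + B0.sum) / u) ::ₘ
      (A0.map (fun v => 2 * v) + B0.map (fun v => 2 * v) + P.map Prod.snd))) ≤
    2 * (A2.sum + B2.sum) + Multiset.card A2

/-- VOI2 (0.8 h, from EM3, HEB, PULL). PROOF. As VOI; now `u' ≤ 2 x.1 + 1 ≤ 5/2 x.1`, so `4 x.1 (1 + B.sum / u') ≥ 8/5
B.sum ≥ 16/5 ∑_Y p.1`, and `wt ≥ Q + 8 A2.sum + 8 B2.sum + 16/5 (h.sum - x.1) ≥ Q + 56/5 h.sum - 4 x.1 ≥ Q + 0.65 M`. -/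
def S_VOI2 : Prop := ∀ (c Q M d N u : ℕ) (A2 A0 B2 B0 : Multiset ℕ) (P : Multiset (ℕ × ℕ)),
  HE c Q M (A2 + B2) (u ::ₘ (A0 + B0)) P → d * (d + 1) < Q + M →
  ∀ (A B : Multiset ℕ) (u' : ℕ),
    u' ::ₘ (A + B) = A2.map (fun v => 2 * v + 1) + B2.map (fun v => 2 * v) →
    gd d ((2 * u' + 1 + (0 + B.sum) / u') ::ₘ
      (A.map (fun v => 2 * v + 1) + B.map (fun v => 2 * v) +
        ((2 * u + 1 + (N + (4 • B2 + B0).sum) / u) ::ₘ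
          (A0.map (fun v => 2 * v + 1) + B0.map (fun v => 2 * v) + P.map Prod.snd)))) = 0

/-- EMPT2 (0.4 h, from GLUE3, DRP2, VOI2). PROOF. As EMPT. -/
def S_EMPT2 : Prop := ∀ (c Q M d N u : ℕ) (A2 A0 B2 B0 : Multiset ℕ) (P : Multiset (ℕ × ℕ)),
  HE c Q M (A2 + B2) (u ::ₘ (A0 + B0)) P → CR d Q M →
  (d + 2).choose 2 ≤ N + bs (A2 + B2) (u ::ₘ (A0 + B0)) P → 50 * N ≤ M →
  gd d ((2 * u + 1 + (N + (4 • B2 + B0).sum) / u) ::ₘ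
    ((4 • A2 + A0).map (fun v => 2 * v + 1) + (4 • B2 + B0).map (fun v => 2 * v) +
      P.map Prod.snd)) = 0

/-- the hypotheses on the list `4 • g + P.map snd` -/
def HF (c Q M : ℕ) (g : Multiset ℕ) (P : Multiset (ℕ × ℕ)) : Prop :=
  1 ≤ c ∧ Q = ((4 • g + P.map Prod.snd).map fun v => v ^ 2).sum ∧ M = (4 • g + P.map Prod.snd).sum ∧
    (∀ v ∈ g, 2 ≤ v ∧ (100 * c * v) ^ 2 ≤ Q ∧ Q ≤ (5 * c * (v * g.count v)) ^ 2) ∧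
    (∀ p ∈ P, 2 ≤ p.2 ∧ p.2 ≤ p.1 ∧ (100 * c * p.1) ^ 2 ≤ Q ∧
      2 * Q ≤ (20 * c * (p.1 * (P.map Prod.fst).count p.1)) ^ 2) ∧
    g.toFinset.card ≤ c ^ 2 ∧ (P.map Prod.fst).toFinset.card ≤ c ^ 2 ∧
    0 < M ∧ 400 * (P.map Prod.snd).sum ≤ M ∧ 400 * (P.map fun p => p.1 * (p.1 - p.2)).sum ≤ M

/-- HES (0.8 h). PROOF. `S = √Q` (real), `s = S / (c v) ≥ 100`. `T = Nat.sqrt (2 Q) / (40 c v) + 1`: `(40 c v T)^2 > 2 Q`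
(the condition for `l`), `T + 7 ≤ 0.0354 s + 8 ≤ 0.1154 s`. `4 h.count v = g.count v - l.count v ≥ 0.2 s - 0.1154 s`,
`80 c v h.count v ≥ 1.69 S ≥ √2 S`. `l.sum = ∑_v v l.count v ≤ c^2 * 0.1154 S / c ≤ 0.0012 M` (`M ≥ 100 c S`, as in HEB).
`h.toFinset`, `l.toFinset ⊆ g.toFinset`. -/
def S_HES : Prop := ∀ (c Q M : ℕ) (g h l : Multiset ℕ) (P : Multiset (ℕ × ℕ)), HF c Q M g P →
  g = 4 • h + l → (∀ v ∈ g, Nat.sqrt (2 * Q) / (40 * c * v) + 1 ≤ l.count v ∧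
    l.count v ≤ Nat.sqrt (2 * Q) / (40 * c * v) + 8) → HE c Q M h l P

/-- ONEH (0.8 h, from GLUE3, LEV2, EMPT2, SPLT, HES). PROOF. As ONEG, `T v = Nat.sqrt (2 Q) / (40 c v) + 1`:
`2 T v + 7 ≤ g.count v - 1` (`0.0708 s + 9 ≤ 0.2 s - 1`, `s = √Q / (c v) ≥ 100`). `N ≤ d + 1`, `d^2 < Q + M ≤ 1.5 Q`,
`M ≥ 100 √Q ≥ 20000`, so `50 N ≤ M`. -/
def S_ONEH : Prop := ∀ (c Q M d : ℕ) (g : Multiset ℕ) (P : Multiset (ℕ × ℕ)), HF c Q M g P →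
  CR d Q M → gd d (4 • g + P.map Prod.snd) ≤ (d + 2).choose 2 -
    ((4 • g + P.map Prod.snd).map fun v => (v + 1).choose 2).sum

/-- ALLH (0.3 h, from ONEH, MON). As ALLN (Helper79/UC/ALLN.lean, `all_of_one`). -/
def S_ALLH : Prop := ∀ (c Q M d : ℕ) (g : Multiset ℕ) (P : Multiset (ℕ × ℕ)), HF c Q M g P →
  gd d (4 • g + P.map Prod.snd) ≤ (d + 2).choose 2 -
    ((4 • g + P.map Prod.snd).map fun v => (v + 1).choose 2).sum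

/-- TGQ (1.2 h, from SPLT). From tagged lists to `(g, P)`. `T` = pairs (tag `x`, multiplicity `y ≤ x`). PROOF. `N' x` = the
number of the pairs with the tag `x`, `N x` = the number of the pairs `(x, x)`. `R` = the `(x, x)` for the tags with
`9 Q ≤ 10 (c x N x)^2`; `P0` = the other pairs of `T`. `R` (numbers) is `4 • g + r0` by SPLT for `A = R`, `B = 0`, with
`T0 v = Nat.sqrt (2 Q) / (20 c v) + 1`; `P = P0 + r0.map (x, x)`. With `S = √Q`, `s = S / (c x) ≥ 100`: `r0.count ≤ 0.0708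
s + 7 ≤ 0.1408 s`, `N x ≥ 0.9486 s`, so `4 g.count ≥ 0.8 s`. The tags of `P`: in `R`: at least `T0` times in `r0`; not in `R`:
all `N' x` pairs are in `P0`, `N' x ≥ s`. Sums: not diagonal pairs: `∑ x ≤ ∑ x (x - y) ≤ M / 10^5`; a tag not in `R` has
`N x < 0.949 s ≤ 0.949 N' x`, so `N' x ≤ 20 (N' x - N x)`: these tags contribute at most `20 M / 10^5`; `r0.sum ≤ c^2 *
0.1408 S / c ≤ 0.0015 M` (`M ≥ 100 c S`). -/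
def S_TGQ : Prop := ∀ (c Q M : ℕ) (T : Multiset (ℕ × ℕ)), 1 ≤ c →
  Q = ((T.map Prod.snd).map fun v => v ^ 2).sum → M = (T.map Prod.snd).sum → 0 < M →
  (∀ p ∈ T, 2 ≤ p.2 ∧ p.2 ≤ p.1 ∧ (100 * c * p.1) ^ 2 ≤ Q ∧
    Q ≤ (c * (p.1 * (T.map Prod.fst).count p.1)) ^ 2) →
  (T.map Prod.fst).toFinset.card ≤ c ^ 2 → 10 ^ 5 * (T.map fun p => p.1 * (p.1 - p.2)).sum ≤ M →
  ∃ (g : Multiset ℕ) (P : Multiset (ℕ × ℕ)), T.map Prod.snd = 4 • g + P.map Prod.snd ∧ HF c Q M g P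

/-- the repeated clause of the final statement -/
def CaseQ (n : ℕ) (m : Fin n → ℕ) : Prop :=
  ∃ (c : ℕ) (m' : Fin n → ℕ), 1 ≤ c ∧
    ((Finset.univ.filter (fun i => 2 ≤ m i)).image m').card ≤ c ^ 2 ∧
    10 ^ 5 * ∑ i ∈ Finset.univ.filter (fun i => 2 ≤ m i), m' i * (m' i - m i) ≤
      ∑ i ∈ Finset.univ.filter (fun i => 2 ≤ m i), m i ∧
    ∀ i, 2 ≤ m i → m i ≤ m' i ∧
      (100 * c * m' i) ^ 2 ≤ ∑ j ∈ Finset.univ.filter (fun j => 2 ≤ m j), m j ^ 2 ∧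
      ∑ j ∈ Finset.univ.filter (fun j => 2 ≤ m j), m j ^ 2 ≤
        (c * (m' i * (Finset.univ.filter (fun j => 2 ≤ m j ∧ m' j = m' i)).card)) ^ 2

/-- FQ (0.8 h, from ALLH, TGQ, GDG). PROOF. `T` = the multiset of the `(m' i, m i)` with `2 ≤ m i`; if it is empty start from
the empty list, otherwise TGQ and ALLH. Then ones by `Helper90.UC.gd_one`, zeros by `Helper90.UC.gd_mono`, GDG: see
Helper79/UC/FW.lean. -/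
def S_FQ : Prop := ∀ (n d : ℕ) (m : Fin n → ℕ), CaseQ n m → GenDim d m (max (vdim d m) 0)

end Pool.Agent.Helper27.UC
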