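import Pool.Agent.Helper27.UC.EqualA
import Pool.Agent.Helper27.UC.Goals8
import Pool.Agent.Helper79.UC.FV
import Pool.Agent.Helper15.UC.GDG

/-!
PROJECT UC: the final statement from the two clauses (helper27).
-/

set_option autoImplicit false

noncomputable section

namespace Pool.Agent.Helper27.UC

open Module Pool.Agent.Helper97.Tate Pool.Agent.Helper1.All Pool.Agent.Helper90.UN

open Pool.Agent.Helper79.UC.FV (gd_zero small)

/-- the multiplicities zero and one are free -/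
theorem genDim_of_large (n d : ℕ) (m : Fin n → ℕ)
    (key : gd d ((Finset.univ.filter (fun i => 2 ≤ m i)).val.map m) ≤
      (d + 2).choose 2 - ∑ i ∈ Finset.univ.filter (fun i => 2 ≤ m i), (m i + 1).choose 2) :
    GenDim d m (max (vdim d m) 0) := by
  classical
  apply Helper15.UC.GDG.t
  obtain ⟨A, hAd⟩ : ∃ A, A = Finset.univ.filter (fun i => 2 ≤ m i) := ⟨_, rfl⟩
  obtain ⟨B, hBd⟩ : ∃ B, B = Finset.univ.filter (fun i => ¬ 2 ≤ m i) := ⟨_, rfl⟩
  rw [← hAd] at key
  have hmulA : ∑ i ∈ A, ({m i} : Multiset ℕ) = A.val.map m := by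
    have h1 : ∑ i ∈ A, ({m i} : Multiset ℕ) =
        (Multiset.map (fun i => ({m i} : Multiset ℕ)) A.val).sum := rfl
    rw [h1]
    have h2 : Multiset.map (fun i => ({m i} : Multiset ℕ)) A.val =
        Multiset.map (fun x => ({x} : Multiset ℕ)) (Multiset.map m A.val) := by
      rw [Multiset.map_map]
      rfl
    rw [h2, Multiset.sum_map_singleton]
  have hAB : Multiset.map m Finset.univ.val =
      A.val.map m + ∑ i ∈ B, ({m i} : Multiset ℕ) := by
    rw [← hmulA, hAd, hBd, Finset.sum_filter_add_sum_filter_not]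
    have h1 : ∑ i, ({m i} : Multiset ℕ) =
        (Multiset.map (fun i => ({m i} : Multiset ℕ)) Finset.univ.val).sum := rfl
    rw [h1]
    have h2 : Multiset.map (fun i => ({m i} : Multiset ℕ)) Finset.univ.val =
        Multiset.map (fun x => ({x} : Multiset ℕ)) (Multiset.map m Finset.univ.val) := by
      rw [Multiset.map_map]
      rfl
    rw [h2, Multiset.sum_map_singleton]
  have hchoose : ∑ i, (m i + 1).choose 2 =
      ∑ i ∈ A, (m i + 1).choose 2 + ∑ i ∈ B, (m i + 1).choose 2 := by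
    rw [hAd, hBd, Finset.sum_filter_add_sum_filter_not]
  have hB : ∀ i ∈ B, m i < 2 := by
    intro i hi
    rw [hBd] at hi
    have := (Finset.mem_filter.1 hi).2
    omega
  have hs := small d m (A.val.map m) B hB
  rw [← hAB] at hs
  have hfin : gd d (Multiset.map m Finset.univ.val) ≤
      (d + 2).choose 2 - ∑ i, (m i + 1).choose 2 := by
    rw [hchoose]
    omega
  unfold vdim
  have hcast : (∑ i, (Nat.choose (m i + 1) 2 : ℤ)) = ((∑ i, (m i + 1).choose 2 : ℕ) : ℤ) := by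
    push_cast
    rfl
  rw [hcast]
  rcases le_total (∑ i, (m i + 1).choose 2) ((d + 2).choose 2) with h | h
  · rw [← Nat.cast_sub h]
    exact le_trans (by exact_mod_cast hfin) (le_max_left _ _)
  · rw [Nat.sub_eq_zero_of_le h] at hfin
    exact le_trans (by exact_mod_cast hfin) (le_max_right _ _)

/-- all the multiplicities `≥ 2` equal -/
def CaseE (n : ℕ) (m : Fin n → ℕ) (d₀ d : ℕ) : Prop :=
  ∃ μ N : ℕ, (∀ i, 2 ≤ m i → m i = μ) ∧ (Finset.univ.filter (fun i => 2 ≤ m i)).card = N ∧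
    (65 ≤ N ∨ (4 ∣ N ∧ 40 ≤ N) ∨
      (10 ≤ N ∧ (d ≠ d₀ ∨ IsSquare N ∨ d ^ 2 ≤ N * μ ^ 2 ∨ N * (μ + 1) ^ 2 ≤ (d + 3) ^ 2 ∨
        (√(N : ℝ) + 1) * μ ≤
          |((Nat.choose (d + 2) 2 : ℝ) - N * (Nat.choose (μ + 1) 2 : ℝ))|)))

theorem genDim_of_eq (n d μ N : ℕ) (m : Fin n → ℕ) (hμ : ∀ i, 2 ≤ m i → m i = μ)
    (hN : (Finset.univ.filter (fun i => 2 ≤ m i)).card = N) (h : NonSp N μ d) :
    GenDim d m (max (vdim d m) 0) := by
  apply genDim_of_large
  have h1 : (Finset.univ.filter (fun i => 2 ≤ m i)).val.map m = rp N μ := by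
    rw [rp, Multiset.eq_replicate]
    constructor
    · rw [Multiset.card_map, ← hN]
      rfl
    · intro b hb
      obtain ⟨i, hi, rfl⟩ := Multiset.mem_map.1 hb
      have h2 : i ∈ Finset.univ.filter (fun i => 2 ≤ m i) := hi
      exact hμ i (Finset.mem_filter.1 h2).2
  have h2 : ∑ i ∈ Finset.univ.filter (fun i => 2 ≤ m i), (m i + 1).choose 2 =
      N * (μ + 1).choose 2 := by
    rw [← hN, ← smul_eq_mul, ← Finset.sum_const]
    refine Finset.sum_congr rfl fun i hi => ?_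
    rw [hμ i (Finset.mem_filter.1 hi).2]
  rw [h1, h2]
  exact Helper90.UC.gd_nonSp cnv N μ d h

theorem fin3 (hQ : S_FQ) : ∀ (n : ℕ) (m : Fin n → ℕ), ∃ d₀ : ℕ, ∀ d : ℕ,
    (CaseE n m d₀ d ∨ CaseQ n m) → GenDim d m (max (vdim d m) 0) := by
  intro n m
  have hd : ∃ d₀ : ℕ, ∀ d, CaseE n m d₀ d → GenDim d m (max (vdim d m) 0) := by
    by_cases hμ : ∃ μ : ℕ, (∀ i, 2 ≤ m i → m i = μ) ∧
        10 ≤ (Finset.univ.filter (fun i => 2 ≤ m i)).card
    · obtain ⟨μ, hμ, hn⟩ := hμ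
      obtain ⟨N, hN⟩ : ∃ N, (Finset.univ.filter (fun i => 2 ≤ m i)).card = N := ⟨_, rfl⟩
      rw [hN] at hn
      obtain ⟨d₀, h⟩ := Helper90.UN.un Helper90.UN.uGoals N μ hn
      refine ⟨d₀, fun d => ?_⟩
      rintro ⟨μ', N', hμ', hN', h1⟩
      have h3 : N' = N := by rw [← hN', hN]
      subst h3
      have h2 : μ' = μ := by
        have h4 : (Finset.univ.filter (fun i => 2 ≤ m i)).Nonempty := by
          rw [← Finset.card_pos]
          omega
        obtain ⟨i, hi⟩ := h4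
        have h5 := (Finset.mem_filter.1 hi).2
        rw [← hμ i h5, hμ' i h5]
      subst h2
      apply genDim_of_eq n d μ' N' m hμ hN
      rcases h1 with h1 | h1 | ⟨-, h1⟩
      · exact equalAll N' μ' d (Or.inl h1)
      · exact equalAll N' μ' d (Or.inr h1)
      · exact h d h1
    · refine ⟨0, fun d => ?_⟩
      rintro ⟨μ', N', hμ', hN', h1⟩
      exfalso
      apply hμ
      refine ⟨μ', hμ', ?_⟩
      rcases h1 with h1 | h1 | ⟨h1, -⟩ <;> omega
  obtain ⟨d₀, hd₀⟩ := hd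
  refine ⟨d₀, fun d => ?_⟩
  rintro (h | h)
  · exact hd₀ d h
  · exact hQ n d m h

end Pool.Agent.Helper27.UC
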