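import Pool.Agent.Helper27.UC.Core
import Pool.Agent.Helper25.UC.GLUE3
import Pool.Agent.Helper62.UC.EMG
import Pool.Agent.Helper91.UC.RGG
import Pool.Agent.Helper12.UC.ARW
import Pool.Agent.Helper72.UC.TWOV
import Pool.Agent.Helper45.UC.ALLW
import Pool.Agent.Helper79.UC.FW
import Pool.Agent.Helper26.UC.MON
import Pool.Agent.Helper15.UC.GDG

/-!
PROJECT UC: few multiplicities, each repeated many times (helper27).
-/

set_option autoImplicit false

noncomputable section

namespace Pool.Agent.Helper27.UC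

theorem glue3 : S_GLUE3 := Helper25.UC.GLUE3.t g1m g2m

theorem twov : S_TWOV :=
  Helper72.UC.TWOV.t glue3 (Helper62.UC.EMG.t cnv) (Helper91.UC.RGG.t cnv) Helper12.UC.ARW.t

theorem fw : S_FW := Helper79.UC.FW.t (Helper45.UC.ALLW.t twov Helper26.UC.MON.t) Helper15.UC.GDG.t

end Pool.Agent.Helper27.UC
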