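import Pool.Agent.Helper27.UC.Goals3
import Pool.Agent.Helper62.UC.G1R

/-!
PROJECT UC: G2R from LIFT and FRM (helper27).
-/

set_option autoImplicit false

noncomputable section

namespace Pool.Agent.Helper27.UC.G2R

open Polynomial Module Pool.Agent.Helper62.UC.G1R

variable {K : Type} [Field K]

/-- the coefficients of the part of degree `k` -/
def ld (k : ℕ) : R2 K →ₗ[K] (ℕ → K) where
  toFun f := fun j => if j ≤ k then cof (k - j) j f else 0
  map_add' f g := by
    funext j
    rw [Pi.add_apply]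
    split_ifs
    · rw [cof_add]
    · rw [add_zero]
  map_smul' c f := by
    funext j
    rw [RingHom.id_apply, Pi.smul_apply]
    split_ifs
    · rw [cof_smul, smul_eq_mul]
    · rw [smul_zero]

theorem ld_apply (k : ℕ) (f : R2 K) (j : ℕ) : ld k f j = if j ≤ k then cof (k - j) j f else 0 := rfl

theorem ker_ld (W : Submodule K (R2 K)) (M : ℕ) :
    (W ⊓ Od M) ⊓ LinearMap.ker (ld (K := K) M) = W ⊓ Od (M + 1) := by
  ext f
  constructor
  · rintro ⟨⟨h1, h2⟩, h3⟩
    refine ⟨h1, ?_⟩
    intro i j hij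
    rcases Nat.lt_or_ge (i + j) M with h | h
    · exact h2 i j h
    · have h4 : i + j = M := by omega
      have h5 := congrFun (LinearMap.mem_ker.1 h3) j
      rw [ld_apply, if_pos (by omega), Pi.zero_apply] at h5
      have h6 : M - j = i := by omega
      rw [h6] at h5
      exact h5
  · rintro ⟨h1, h2⟩
    refine ⟨⟨h1, fun i j hij => h2 i j (by omega)⟩, ?_⟩
    apply LinearMap.mem_ker.2
    funext j
    rw [ld_apply, Pi.zero_apply]
    split_ifs with h
    · exact h2 _ _ (by omega)
    · rfl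

theorem t (hL : S_LIFT) (hF : S_FRM) : S_G2R := by
  intro K _ _ W t hW hmin hle
  have hlift := hL K W t hW hmin
  have i0 : FiniteDimensional K (W ⊓ Od t : Submodule K (R2 K)) :=
    Submodule.finiteDimensional_of_le inf_le_left
  have i1 : FiniteDimensional K (W ⊓ Od (t + 1) : Submodule K (R2 K)) :=
    Submodule.finiteDimensional_of_le inf_le_left
  have r0 := rank_null (W ⊓ Od t) (ld (K := K) t)
  have r1 := rank_null (W ⊓ Od (t + 1)) (ld (K := K) (t + 1))
  rw [ker_ld] at r0 r1
  have h := hF K t ((W ⊓ Od (t + 1)).map (ld (t + 1))) ((W ⊓ Od t).map (ld t)) ?_ ?_ ?_ ?_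
  · have e : t + 1 + 1 = t + 2 := rfl
    rw [e] at r1
    omega
  · rintro g ⟨f, hf, rfl⟩ j hj
    rw [ld_apply, if_neg (by omega)]
  · rintro g ⟨f, hf, rfl⟩ j hj
    rw [ld_apply, if_neg (by omega)]
  · rintro u v g ⟨f, hf, rfl⟩
    obtain ⟨f', hf', h1⟩ := hlift u v f hf
    refine ⟨ld t f', Submodule.mem_map_of_mem hf', ?_⟩
    intro j hj
    have h2 := h1 (t - j) j (by omega)
    rw [ld_apply, ld_apply, ld_apply, if_pos hj, if_pos (by omega), if_pos (by omega), h2]
    have e1 : t + 1 - j = t - j + 1 := by omega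
    have e2 : t + 1 - (j + 1) = t - j := by omega
    rw [e1, e2, Nat.cast_sub hj]
    ring
  · omega

end Pool.Agent.Helper27.UC.G2R
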