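import Pool.Agent.Helper27.UC.Goals

/-!
PROJECT UC (MP_d3128a_ag): the goal G2R in two pieces (helper27).
-/

set_option autoImplicit false

noncomputable section

namespace Pool.Agent.Helper27.UC

open Polynomial Module

/-- LIFT (1.2 h, from SEM, SHF; helper62). The first half of the proof of G2R (CLAIM in its docstring), in
coefficients. -/
def S_LIFT : Prop := ∀ (K : Type) [Field K] [CharZero K] (W : Submodule K (R2 K)) (t : ℕ),
  FiniteDimensional K W →
  (∀ u v : K, finrank K (W ⊓ Od (t + 1) : Submodule K (R2 K)) ≤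
    finrank K (W ⊓ (Od (t + 1)).comap (sh u v).toLinearMap : Submodule K (R2 K))) →
  ∀ (u v : K), ∀ f ∈ W ⊓ Od (t + 1), ∃ f' ∈ W ⊓ Od t, ∀ i j, i + j = t →
    cof i j f' = u * (i + 1) * cof (i + 1) j f + v * (j + 1) * cof i (j + 1) f

/-- FRM (0.6 h; helper45). Binary forms. PROOF. Suppose `finrank G0 < finrank G1`. For every `x` the map
`D : G1 → G0` with `u = - x`, `v = 1` has a kernel: `g_(j+1) (j + 1) = x (t + 1 - j) g_j`, so
`g_j = g_0 C(t+1, j) x ^ j` with `g_0 ≠ 0`: the vector `(C(t+1, j) x ^ j)_j` is in `G1` for all `x`; `t + 2` of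
them are independent (Vandermonde), so `G1 = ⊤`; `u = 1`, `v = 0`: `(t + 1 - j) g_j`, so `G0 = ⊤`, of
dimension `t + 1`. -/
def S_FRM : Prop := ∀ (K : Type) [Field K] [CharZero K] (t : ℕ) (G1 : Submodule K (ℕ → K))
  (G0 : Submodule K (ℕ → K)), (∀ g ∈ G1, ∀ j, t + 1 < j → g j = 0) → (∀ g ∈ G0, ∀ j, t < j → g j = 0) →
  (∀ (u v : K), ∀ g ∈ G1, ∃ g' ∈ G0, ∀ j, j ≤ t →
    g' j = u * ((t : K) + 1 - j) * g j + v * (j + 1) * g (j + 1)) →
  finrank K G0 ≤ t → finrank K G1 ≤ finrank K G0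

end Pool.Agent.Helper27.UC
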