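import Pool.Agent.Helper27.UC.Goals
import Pool.Agent.Helper1.All.Final

/-!
PROJECT UC (MP_d3128a_ag), the unequal clause: lists with few distinct multiplicities, each repeated many
times. Goals with proofs in words (helper27). The class of the value `x` has the weight `2 x + 1` at a point
and `2 (2 x + 1)` at a group of four points; `D` is the sum of the squares of the weights.
-/

set_option autoImplicit false

noncomputable section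

namespace Pool.Agent.Helper27.UC

open Module Pool.Agent.Helper97.Tate Pool.Agent.Helper1.All

/-- GLUE3 (0.6 h, from G1M, G2M). Gluing of groups of four points with several multiplicities: `g` is the
multiset of the multiplicities of the groups, `l` the other points. PROOF. As Helper25.UC.GLUE, Helper90.UC.GLUE2.
(STEP) for all `A + B = g`: `gd d (A.map (2 v + 1) + B.map (2 v) + l) ≤ N + B.sum`, by induction on `A`: `A = 0` is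
the hypothesis. `u ::ₘ A`: let `a_t = gd d (t ::ₘ (A.map .. + B.map .. + l))`; `a_(2u) ≤ N + B.sum + u` by induction
(for `A` and `u ::ₘ B`). If `a_(2u+1) + u ≤ a_(2u)`: clear. Otherwise `a_t + 1 ≤ a_(t+1) + u` for all `t ≥ 2 u`
(G2M), so with `k = (N + B.sum) / u`: `a_(2u+1) + k ≤ a_(2u+1+k) + k u = k u`, `a_(2u+1) ≤ k (u - 1) ≤ N + B.sum`.
(ITER) for all `A + B + h = g`: `gd d (A.map .. + B.map .. + 4 • h + l) ≤ N + B.sum`, by induction on `h` (for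
all `A, B`) with G1M. Then `h = g`. -/
def S_GLUE3 : Prop := ∀ (d N : ℕ) (g l : Multiset ℕ), (∀ v ∈ g, 1 ≤ v) →
  gd d (g.map (fun v => 2 * v) + l) ≤ N + g.sum →
  (∀ (A B : Multiset ℕ) (u : ℕ), u ::ₘ (A + B) = g →
    gd d ((2 * u + 1 + (N + B.sum) / u) ::ₘ
      (A.map (fun v => 2 * v + 1) + B.map (fun v => 2 * v) + l)) = 0) →
  gd d (4 • g + l) ≤ N

/-- EMX (0.8 h, from CNV). Emptiness. PROOF. `Helper90.UC.emT` (Helper90/UC/GDR.lean) with the rows `Fin (2 q)`,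
`q = V.card` (`V.equivFin`): two rows for `x ∈ V`: the marked points `p ∈ T` with `p.1 = x` (weight
`2 (2 x + 1)`, `j x` of them) and the `s x` points of multiplicity `x` (weight `2 x + 1`). `∑_l a l * S l` is
the sum over all the marked points of weight times multiplicity. -/
def S_EMX : Prop := ∀ (d k D : ℕ) (V : Finset ℕ) (j s : ℕ → ℕ) (T : Multiset (ℕ × ℕ)), V.Nonempty →
  (∀ p ∈ T, p.1 ∈ V) → (∀ x ∈ V, Multiset.card (T.filter (fun p => p.1 = x)) = j x) →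
  3 ≤ k → 4 * V.card ≤ (k - 1) * (k - 2) → (∀ x ∈ V, 2 ≤ j x ∧ 2 ≤ s x) →
  D = ∑ x ∈ V, (4 * j x + s x) * (2 * x + 1) ^ 2 →
  (∀ x ∈ V, (k * (2 * (2 * x + 1))) ^ 2 ≤ D ∧ D ≤ (k * (j x * (2 * (2 * x + 1)))) ^ 2 ∧
    D ≤ (k * (s x * (2 * x + 1))) ^ 2) →
  D * d ^ 2 < ((T.map fun p => 2 * (2 * p.1 + 1) * p.2).sum + ∑ x ∈ V, (2 * x + 1) * (s x * x)) ^ 2 →
  gd d (T.map Prod.snd + ∑ x ∈ V, rp (s x) x) = 0

/-- RGX (0.7 h, from CNV). Regularity. PROOF. `Helper90.UC.rgT` with the same rows, `a = 2 x + 1` (multiplicity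
`2 x`) and `a = x + 1` (multiplicity `x`); the maxima are the first arguments. -/
def S_RGX : Prop := ∀ (d k M : ℕ) (V : Finset ℕ) (j s : ℕ → ℕ), V.Nonempty →
  3 ≤ k → 4 * V.card ≤ (k - 1) * (k - 2) →
  (∀ x ∈ V, 1 ≤ j x ∧ 1 ≤ s x ∧ k * (2 * x + 1) < d + 3 ∧ d + 3 ≤ k * (j x * (2 * x + 1)) ∧
    d + 3 ≤ k * (s x * (x + 1))) →
  ∑ x ∈ V, (j x * (2 * x + 1) ^ 2 + s x * (x + 1) ^ 2) < (d + 3) ^ 2 →
  (d + 2).choose 2 ≤ M + ∑ x ∈ V, (j x * (2 * x + 1).choose 2 + s x * (x + 1).choose 2) →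
  gd d (∑ x ∈ V, rp (j x) (2 * x) + ∑ x ∈ V, rp (s x) x) ≤ M

/-- the hypotheses on a list: values `V`, `N x` points of multiplicity `x` -/
def LV (c : ℕ) (V : Finset ℕ) (N : ℕ → ℕ) (D : ℕ) : Prop :=
  1 ≤ c ∧ V.Nonempty ∧ V.card ≤ c ∧ D = ∑ x ∈ V, N x * (2 * x + 1) ^ 2 ∧
  4 * (∑ x ∈ V, N x) ^ 2 ≤ D ∧
  ∀ x ∈ V, 2 ≤ x ∧ (40 * c * (2 * x + 1)) ^ 2 ≤ D ∧ 49 * D ≤ (20 * c * (N x * (2 * x + 1))) ^ 2

/-- ARV (0.8 h). Arithmetic, `k = 20 c`. PROOF. `S = √D`, `w = 2 x + 1`. Let `s x` be the integer with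
`S ≤ k w s x < S + 4 k w` and `s x ≡ N x` mod 4, `j x = (N x - s x) / 4`. `2 k w ≤ S` by hypothesis, so `s x ≥ 2`
and `k w s x < 3 S`. `k w N x ≥ 7 S`, so `4 k w j x > 4 S`, `k w j x > S ≥ 2 k w`: `j x ≥ 2`, `D ≤ (2 k w j x)²`. `d + 3`:
`2 d + 1 < S` gives `d + 3 ≤ S / 2 + 5 / 2 ≤ S ≤ k w j x` (`S ≥ 2 k w ≥ 200`); `2 (d + 3) < S + 5` and
`2 k s x (x + 1) = k w s x + k s x ≥ S + 40`. `14 d + 37 ≥ 7 S`: `2 (d + 3) ≥ S + 5 / 7`, so `k w < d + 3`, and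
`4 (d + 3)² ≥ (S + 5/7)² > D + 10 S / 7`; `4 ∑ (j x w² + s x (x + 1)²) = D + ∑ s x (4 x + 3)` (as
`4 (x + 1)² - w² = 4 x + 3 ≤ 1.1 · 2 w.. ≤ 11 w / 5`), `∑ s x w ≤ c · 3 S / k = 3 S / 20`, so the sum is
`< D + S / 2`. Last: `∑ s x w ≤ 3 S / 20`, `4 ∑ j x ≤ ∑ N x ≤ S / 2`, `8 u ≤ 4 w ≤ 4 S / 40`. -/
def S_ARV : Prop := ∀ (c d D : ℕ) (V : Finset ℕ) (N : ℕ → ℕ), LV c V N D →
  (2 * d + 1) ^ 2 < D → 49 * D ≤ (14 * d + 37) ^ 2 →
  ∃ j s : ℕ → ℕ, (∀ x ∈ V, N x = 4 * j x + s x ∧ 2 ≤ j x ∧ 2 ≤ s x ∧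
      (20 * c * (2 * (2 * x + 1))) ^ 2 ≤ D ∧ D ≤ (20 * c * (j x * (2 * (2 * x + 1)))) ^ 2 ∧
      D ≤ (20 * c * (s x * (2 * x + 1))) ^ 2 ∧ 20 * c * (2 * x + 1) < d + 3 ∧
      d + 3 ≤ 20 * c * (j x * (2 * x + 1)) ∧ d + 3 ≤ 20 * c * (s x * (x + 1))) ∧
    ∑ x ∈ V, (j x * (2 * x + 1) ^ 2 + s x * (x + 1) ^ 2) < (d + 3) ^ 2 ∧
    ∀ u ∈ V, (∑ x ∈ V, s x * (2 * x + 1) + 4 * ∑ x ∈ V, j x + 8 * u) ^ 2 < D

/-- ONEV (1 h, from GLUE3, EMX, RGX, ARV). The degrees next to the critical one. PROOF. `j, s` from ARV,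
`g = ∑ rp (j x) x`, `l = ∑ rp (s x) x`, `4 • g + l = ∑ rp (N x) x`, `N' =` the right side of the claim, `k = 20 c`
(`4 c ≤ (20 c - 1) (20 c - 2)`). First hypothesis of GLUE3: RGX with `M = N' + g.sum`
(`C(2x+1, 2) + x = 4 C(x+1, 2)`). Second: EMX with `T = A.map (x, 2x+1) + B.map (x, 2x) + (u, 2u+1+q)`,
`q = (N' + B.sum) / u ≥ B.sum / u`, so `u q ≥ B.sum - u + 1`; the sum `W` of weight times multiplicity:
`W ≥ ∑_A 2 (2x+1)² + ∑_B (4 x (2x+1) + 4 x) + 2 (2u+1)² - 4 u + ∑ (2x+1) x s x`,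
`4 x (2x+1) + 4 x = 2 (2x+1)² - 2`, so `2 W ≥ D - ∑ s x (2x+1) - 4 |B| - 8 u = D - Y`, `Y² < D` (ARV),
`2 d + 1 < √D`: `2 W > D - √D ≥ 2 d √D`. -/
def S_ONEV : Prop := ∀ (c d D : ℕ) (V : Finset ℕ) (N : ℕ → ℕ), LV c V N D →
  (2 * d + 1) ^ 2 < D → 49 * D ≤ (14 * d + 37) ^ 2 →
  gd d (∑ x ∈ V, rp (N x) x) ≤ (d + 2).choose 2 - ∑ x ∈ V, N x * (x + 1).choose 2

/-- MON (1 h). The degree. PROOF. (1) multiply by a linear form: `F ↦ X 2 * F` is injective and maps `spc d L` into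
`spc (d + 1) L`. (2) take a position attaining `gd d l` with all the third coordinates non-zero (TRK, see
Helper93/UC/GEN.lean: the third coordinates of a general position); in `spc (d + 1) L` the forms divisible by `X 2` are
`X 2 * F`, `F ∈ spc d L` (`X 2` does not vanish at the points: the lowest terms of `tau P (X 2 * F)`), and
modulo those the form is determined by its restriction to `X 2 = 0`, a binary form of degree `d + 1`: dimension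
at most `d + 2`. -/
def S_MON : Prop := ∀ (d : ℕ) (l : Multiset ℕ), gd d l ≤ gd (d + 1) l ∧ gd (d + 1) l ≤ gd d l + (d + 2)

/-- ALLV (0.6 h, from ONEV, MON). All degrees. PROOF. `D = ∑ N x (2x+1)²`, `n = ∑ N x`, `4 ∑ N x x (x+1) = D - n`
(`2 C(x+1,2) = x (x+1)`), `e` = the least degree with `C(e+2, 2) ≥ ∑ N x C(x+1, 2)`. If `e ≥ 1`:
`e (e + 1) < ∑ N x x (x+1)`, so `(2 e + 1)² < D - n + 1 ≤ D` (if `e = 0` clear). `(e+1)(e+2) ≥ ..`: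
`(2 e + 3)² ≥ D - n + 1 > D - √D / 2 ≥ (√D - 2/7)²`, so `14 e + 23 ≥ 7 √D`: ONEV applies to `e` and to
`e - 1` (if `e ≥ 1`). `d ≥ e`: from `gd e + ∑ N x C(x+1,2) ≤ C(e+2, 2)` by MON. `d < e`: `gd (e-1) = 0`, MON. -/
def S_ALLV : Prop := ∀ (c d D : ℕ) (V : Finset ℕ) (N : ℕ → ℕ), LV c V N D →
  gd d (∑ x ∈ V, rp (N x) x) ≤ (d + 2).choose 2 - ∑ x ∈ V, N x * (x + 1).choose 2

/-- GDG (0.5 h). From `gd` to general points, any multiplicities. PROOF. As CNV (2) and `Helper90.UN.nonSp_of`: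
`Nat.sInf_mem`, enumerate the multiset compatibly with `m`, `transC` (Helper97/Nag/Main1.lean), `upgrade`
(Helper1/All/Final.lean). -/
def S_GDG : Prop := ∀ (n d : ℕ) (m : Fin n → ℕ),
  (gd d (Multiset.map m Finset.univ.val) : ℤ) ≤ max (vdim d m) 0 → GenDim d m (max (vdim d m) 0)

/-- FV (0.8 h, from ALLV, GDG). PROOF. `V` = the values `≥ 2` of `m`, `N x = #{i | m i = x}`; the multiset is
`∑_{x ∈ V} rp (N x) x` plus `n₁` ones plus zeros. If `V` is empty or not: ones are added by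
`Helper90.UC.gd_one` (MONO.lean; for `V` empty start from the empty list, `gd d 0 ≤ C(d+2, 2)`), zeros by
`Helper90.UC.gd_mono`. `LV c V N D`: `Q = ∑_{x ∈ V} N x x²`, `4 Q ≤ D ≤ 25 Q / 4` (`2 x + 1 ≤ 5 x / 2`),
`40 c (2 x + 1) ≤ 100 c x ≤ 2 √Q ≤ √D`, `7 √D ≤ 35 √Q / 2 ≤ 40 c x N x`, `4 n² ≤ 4 Q ≤ D`. -/
def S_FV : Prop := ∀ (c n d : ℕ) (m : Fin n → ℕ), 1 ≤ c →
  ((Finset.univ.image m).filter (fun x => 2 ≤ x)).card ≤ c →
  (Finset.univ.filter (fun i => 2 ≤ m i)).card ^ 2 ≤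
    ∑ i ∈ Finset.univ.filter (fun i => 2 ≤ m i), m i ^ 2 →
  (∀ i, 2 ≤ m i →
    (50 * c * m i) ^ 2 ≤ ∑ i ∈ Finset.univ.filter (fun i => 2 ≤ m i), m i ^ 2 ∧
    ∑ i ∈ Finset.univ.filter (fun i => 2 ≤ m i), m i ^ 2 ≤
      (c * (m i * (Finset.univ.filter (fun j => m j = m i)).card)) ^ 2) →
  GenDim d m (max (vdim d m) 0)

end Pool.Agent.Helper27.UC
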