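import Pool.Agent.Helper27.UC.Goals4

/-!
PROJECT UC (MP_d3128a_ag), the unequal clause, STRONGER VERSION with two levels of gluing (it replaces EMX, RGX,
ARV, ONEV, ALLV, FV of Goals4.lean; no hypothesis on the number of points any more). Goals with proofs in words
(helper27). The weights of the nef class are now `x` at a point of multiplicity `x`, `2 x` at a group of four,
`4 x` at a group of sixteen; `Q = ∑ N x * x ^ 2`, `S = √Q`, `k = 20 c`.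
-/

set_option autoImplicit false

noncomputable section

namespace Pool.Agent.Helper27.UC

open Module Pool.Agent.Helper97.Tate Pool.Agent.Helper1.All

/-- EMG (0.6 h, from CNV). Emptiness, rows indexed by a finite set `I`. PROOF. `Helper90.UC.emT`
(Helper90/UC/GDR.lean) with `c = I.card`, rows by `I.equivFin`; `∑_l a l * S l` is the sum over `T` of
`a * multiplicity` (`Multiset.sum_map` over the fibres, or `Finset.sum` over `I` of filters). -/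
def S_EMG : Prop := ∀ (ι : Type) [DecidableEq ι] (d k D : ℕ) (I : Finset ι) (a N : ι → ℕ)
  (T : Multiset (ι × ℕ)), I.Nonempty → (∀ p ∈ T, p.1 ∈ I) →
  (∀ i ∈ I, Multiset.card (T.filter (fun p => p.1 = i)) = N i) →
  3 ≤ k → 2 * I.card ≤ (k - 1) * (k - 2) →
  (∀ i ∈ I, 0 < a i ∧ 2 ≤ N i ∧ (k * a i) ^ 2 ≤ D ∧ D ≤ (k * (N i * a i)) ^ 2) →
  D = ∑ i ∈ I, N i * a i ^ 2 →
  D * d ^ 2 < ((T.map fun p => a p.1 * p.2).sum) ^ 2 → gd d (T.map Prod.snd) = 0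

/-- RGG (0.6 h, from CNV). Regularity, rows indexed by a finite set `I`. PROOF. `Helper90.UC.rgT`; the maxima are
the first arguments. -/
def S_RGG : Prop := ∀ (ι : Type) [DecidableEq ι] (d k M : ℕ) (I : Finset ι) (a N : ι → ℕ)
  (T : Multiset (ι × ℕ)), I.Nonempty → (∀ p ∈ T, p.1 ∈ I ∧ p.2 + 1 ≤ a p.1) →
  (∀ i ∈ I, Multiset.card (T.filter (fun p => p.1 = i)) = N i) →
  3 ≤ k → 2 * I.card ≤ (k - 1) * (k - 2) →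
  (∀ i ∈ I, 0 < a i ∧ 1 ≤ N i ∧ k * a i < d + 3 ∧ d + 3 ≤ k * (N i * a i)) →
  ∑ i ∈ I, N i * a i ^ 2 < (d + 3) ^ 2 →
  (d + 2).choose 2 ≤ M + ((T.map fun p => (p.2 + 1).choose 2).sum) →
  gd d (T.map Prod.snd) ≤ M

/-- the hypotheses on a list: values `V`, `N x` points of multiplicity `x` -/
def LW (c : ℕ) (V : Finset ℕ) (N : ℕ → ℕ) (Q : ℕ) : Prop :=
  1 ≤ c ∧ V.Nonempty ∧ V.card ≤ c ∧ Q = ∑ x ∈ V, N x * x ^ 2 ∧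
  ∀ x ∈ V, 1 ≤ x ∧ (100 * c * x) ^ 2 ≤ Q ∧ Q ≤ (c * (x * N x)) ^ 2

/-- ARW (1 h). Arithmetic. `S = √Q ≥ 100 c x`, `k = 20 c`, `k x N x ≥ 20 S`, `M = ∑ N x * x ≤ Q`. PROOF. `s0 x` = the
integer with `2 S ≤ k x s0 < 2 S + 4 k x` and `s0 ≡ N x` mod 4, so `k x s0 < 2.8 S` (`4 k x = 80 c x ≤ 0.8 S`);
`j1 = (N x - s0) / 4`, `k x j1 ≥ 4.3 S`; `s1` with `2 S ≤ 2 k x s1 < 2 S + 8 k x`, `s1 ≡ j1` mod 4,
`2 k x s1 < 3.6 S`; `j2 = (j1 - s1) / 4`, `4 k x j2 ≥ 2.5 S`. `j2, s1, s0 ≥ 2`: from `4 k x ≤ 0.8 S`.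
From `d (d + 1) < Q + M`: `(d + 1/2)² < Q + M + 1/4 ≤ 2 Q + 1/4`, `d + 3 ≤ 1.42 S + 3 ≤ 2 S`. From
`Q + M ≤ (d + 2)(d + 3)`: `(d + 5/2)² ≥ Q + M + 1/4`, `(d + 3)² ≥ Q + M + √(Q + M) ≥ Q + M + S`, `d + 3 > S ≥
100 c x ≥ k (4 x + 1)`. The sum: `Q + ∑ (j2 (8x+1) + s1 (4x+1) + s0 (2x+1)) = Q + M / 2 + ∑ (2 s1 x + 1.5 s0 x + j2
+ s1 + s0)`, `∑ j2 ≤ M / 16`, `∑ 2 s1 x ≤ 3.6 S c / k = 0.18 S`, `∑ s0 x ≤ 0.14 S`, `s1 ≤ s1 x`, `s0 ≤ s0 x`: less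
than `Q + M + S`. Last: `S d < Q + M / 2 + 1 / 8 - S / 2` (`d + 1/2 < √(Q + M + 1/4) ≤ S + (M + 1/4) / (2 S)`) and
`2 ∑ (4 j2 + s1) x = (M - ∑ s0 x) / 2 ≥ M / 2 - 0.07 S`, `2 u ≤ 0.02 S`. -/
def S_ARW : Prop := ∀ (c d Q : ℕ) (V : Finset ℕ) (N : ℕ → ℕ), LW c V N Q →
  d * (d + 1) < Q + ∑ x ∈ V, N x * x → Q + ∑ x ∈ V, N x * x ≤ (d + 2) * (d + 3) →
  ∃ j2 s1 s0 : ℕ → ℕ, (∀ x ∈ V, N x = 4 * (4 * j2 x + s1 x) + s0 x ∧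
      2 ≤ j2 x ∧ 2 ≤ s1 x ∧ 2 ≤ s0 x ∧
      (20 * c * (4 * x)) ^ 2 ≤ Q ∧ Q ≤ (20 * c * (j2 x * (4 * x))) ^ 2 ∧
      Q ≤ (20 * c * (s1 x * (2 * x))) ^ 2 ∧ Q ≤ (20 * c * (s0 x * x)) ^ 2 ∧
      20 * c * (4 * x + 1) < d + 3 ∧ d + 3 ≤ 20 * c * (j2 x * (4 * x + 1)) ∧
      d + 3 ≤ 20 * c * (s1 x * (2 * x + 1)) ∧ d + 3 ≤ 20 * c * (s0 x * (x + 1))) ∧
    ∑ x ∈ V, (j2 x * (4 * x + 1) ^ 2 + s1 x * (2 * x + 1) ^ 2 + s0 x * (x + 1) ^ 2) < (d + 3) ^ 2 ∧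
    ∀ u ∈ V, Q * d ^ 2 < (Q + 2 * (∑ x ∈ V, (4 * j2 x + s1 x) * x - u)) ^ 2

/-- TWOV (1 h, from GLUE3, EMG, RGG, ARW). PROOF. `j2, s1, s0` from ARW, `j1 = 4 j2 + s1`,
`g1 = ∑ rp (j1 x) x`, `l0 = ∑ rp (s0 x) x`, `∑ rp (N x) x = 4 • g1 + l0`, `N0 =` the right side of the claim. GLUE3
with `N0, g1, l0`. Its first hypothesis: `g1.map (2 ·) + l0 = 4 • g2 + (l1 + l0)`, `g2 = ∑ rp (j2 x) (2 x)`,
`l1 = ∑ rp (s1 x) (2 x)`; GLUE3 again, with `N1 = N0 + g1.sum`. FIRST hypothesis of the second GLUE3: RGG with `3` rows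
for each `x` (`ι = ℕ × Fin 3`): `j2 x` points of multiplicity `4 x`, `s1 x` of `2 x`, `s0 x` of `x`, `a` =
multiplicity plus one, `M = N1 + g2.sum` (an equality of binomials: `j2 C(4x+1,2) + s1 C(2x+1,2) + (4 j2 + s1) x +
2 j2 x = (16 j2 + 4 s1) C(x+1,2)`). SECOND hypotheses: EMG with `D = Q`. Second gluing (`A, B, u` consist of numbers
`2 x`; rows `4 x`: the group, `2 x`: `l1`, `x`: `l0`): the sum `W` of weight times multiplicity is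
`Q + 2 A.sum + 2 u (1 + q)`, `q = (N1 + B.sum) / u`, `u (1 + q) ≥ N1 + B.sum ≥ g1.sum`, so `W ≥ Q + 2 g1.sum`. First
gluing (`A, B, u` consist of numbers `x`; rows `2 x`: the group, `j1 x` of them, and `x`: `l0`):
`W = Q + 2 A.sum + 2 u (1 + q)`, `u (1 + q) ≥ B.sum`, `W ≥ Q + 2 (g1.sum - u)`. ARW. -/
def S_TWOV : Prop := ∀ (c d Q : ℕ) (V : Finset ℕ) (N : ℕ → ℕ), LW c V N Q →
  d * (d + 1) < Q + ∑ x ∈ V, N x * x → Q + ∑ x ∈ V, N x * x ≤ (d + 2) * (d + 3) →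
  gd d (∑ x ∈ V, rp (N x) x) ≤ (d + 2).choose 2 - ∑ x ∈ V, N x * (x + 1).choose 2

/-- ALLW (0.5 h, from TWOV, MON). All degrees. PROOF. `M = ∑ N x x`, `2 ∑ N x C(x+1, 2) = Q + M`; `e` = the least
degree with `Q + M ≤ (e + 1) (e + 2)`. TWOV applies to `e` and, if `e ≥ 1`, to `e - 1`. `d ≥ e`: from
`gd e + ∑ N x C(x+1,2) ≤ C(e+2, 2)` by MON. `d < e`: `gd (e-1) = 0`, MON. -/
def S_ALLW : Prop := ∀ (c d Q : ℕ) (V : Finset ℕ) (N : ℕ → ℕ), LW c V N Q →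
  gd d (∑ x ∈ V, rp (N x) x) ≤ (d + 2).choose 2 - ∑ x ∈ V, N x * (x + 1).choose 2

/-- FW (0.4 h, from ALLW, GDG). As FV (Helper79/UC/FV.lean) with the hypothesis on the number of points removed:
`V` = the values `≥ 2` of `m`, `N x = #{i | m i = x}`; ones by `gd_one`, zeros by `gd_mono`. -/
def S_FW : Prop := ∀ (c n d : ℕ) (m : Fin n → ℕ), 1 ≤ c →
  ((Finset.univ.image m).filter (fun x => 2 ≤ x)).card ≤ c →
  (∀ i, 2 ≤ m i →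
    (100 * c * m i) ^ 2 ≤ ∑ i ∈ Finset.univ.filter (fun i => 2 ≤ m i), m i ^ 2 ∧
    ∑ i ∈ Finset.univ.filter (fun i => 2 ≤ m i), m i ^ 2 ≤
      (c * (m i * (Finset.univ.filter (fun j => m j = m i)).card)) ^ 2) →
  GenDim d m (max (vdim d m) 0)

end Pool.Agent.Helper27.UC
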