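import Pool.Agent.Helper27.UC.Goals6

/-!
PROJECT UC part 5 (MP_d3128a_ag), the REPEATED clause: comparable multiplicities (`m_i ≤ K m_j`), every value
occurring at least `C (K)` times, up to a small perturbation; no bound on the number of values. It replaces the almost
equal clause. Goals with proofs in words (helper27).

THE LIST is `L = 4 • g + P.map snd`; `P` consists of pairs (tag `x`, multiplicity `y ≤ x`), few and with small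
`∑ (x - y)`; the elements of `g` are repeated very often. `g = 4 • h + l`: after one gluing a point of `h` has
multiplicity `2 v`, after two gluings `4 v`. WEIGHTS of the nef class: `4 v` for `v ∈ h`, `2 v` for `v ∈ l`, `x` for
`(x, y) ∈ P`. `Q = qs` and `M = ms` are the sum of the squares and the sum of the multiplicities of `L`. All the
errors are at most `n m / (1000 K)` and `M ≥ n m / K`. RULE: a system of multiplicities is EMPTY if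
`∑ weight * multiplicity ≥ Q + 0.6 M` (EM2), and the system with `4 v`, `2 v`, `y` is REGULAR (RG2).
-/

set_option autoImplicit false

noncomputable section

namespace Pool.Agent.Helper27.UC

open Module Pool.Agent.Helper97.Tate Pool.Agent.Helper1.All

/-- the sum of the squares of `16 • h + 4 • l + P.map snd` -/
def qs (h l : Multiset ℕ) (P : Multiset (ℕ × ℕ)) : ℕ :=
  16 * (h.map fun v => v ^ 2).sum + 4 * (l.map fun v => v ^ 2).sum + (P.map fun p => p.2 ^ 2).sum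

/-- the sum of `16 • h + 4 • l + P.map snd` -/
def ms (h l : Multiset ℕ) (P : Multiset (ℕ × ℕ)) : ℕ :=
  16 * h.sum + 4 * l.sum + (P.map fun p => p.2).sum

/-- the number of conditions -/
def bs (h l : Multiset ℕ) (P : Multiset (ℕ × ℕ)) : ℕ :=
  16 * (h.map fun v => (v + 1).choose 2).sum + 4 * (l.map fun v => (v + 1).choose 2).sum +
    (P.map fun p => (p.2 + 1).choose 2).sum

/-- the sum of weight times multiplicity: `Th`, `Tl` consist of pairs (value, multiplicity) -/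
def wt (Th Tl P : Multiset (ℕ × ℕ)) : ℕ :=
  (Th.map fun p => 4 * p.1 * p.2).sum + (Tl.map fun p => 2 * p.1 * p.2).sum +
    (P.map fun p => p.1 * p.2).sum

/-- the hypotheses on a decomposition -/
def HD (K n m : ℕ) (h l : Multiset ℕ) (P : Multiset (ℕ × ℕ)) : Prop :=
  1 ≤ K ∧ 10 ^ 8 * K ^ 4 ≤ n ∧ n ≤ m ∧
    16 * Multiset.card h + 4 * Multiset.card l + Multiset.card P = n ∧
    (∀ v ∈ h, v ≤ m ∧ m ≤ K * v ∧ 30 * K ^ 2 ≤ h.count v) ∧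
    (∀ v ∈ l, v ≤ m ∧ m ≤ K * v ∧ 30 * K ^ 2 ≤ l.count v) ∧
    (∀ p ∈ P, p.2 ≤ p.1 ∧ p.1 ≤ m ∧ m ≤ K * p.2 ∧ 30 * K ^ 2 ≤ (P.map Prod.fst).count p.1) ∧
    1000 * K * Multiset.card l ≤ n ∧ 1000 * K * Multiset.card P ≤ n ∧
    1000 * K * (P.map fun p => p.1 - p.2).sum ≤ n

/-- `d` is next to the critical degree (`Q` = sum of squares, `M` = sum) -/
def CR (d Q M : ℕ) : Prop := d * (d + 1) < Q + M ∧ Q + M ≤ (d + 2) * (d + 3)

/-- HDB (0.6 h). Arithmetic consequences of HD. PROOF. `K v ≥ m` for all the `n` multiplicities; `16 |h| = n - 4 |l| -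
|P| ≥ 0.995 n`, so `17 |h| ≥ n`. -/
def S_HDB : Prop := ∀ (K n m : ℕ) (h l : Multiset ℕ) (P : Multiset (ℕ × ℕ)), HD K n m h l P →
  n * m ≤ K * ms h l P ∧ ms h l P ≤ n * m ∧ n * m ≤ 17 * K * h.sum ∧ 16 * h.sum ≤ n * m ∧
  1000 * K * l.sum ≤ n * m ∧ 1000 * K * (P.map fun p => p.2).sum ≤ n * m ∧
  n * m ^ 2 ≤ K ^ 2 * qs h l P ∧ qs h l P ≤ n * m ^ 2 ∧
  1000 * K * (K * n) ≤ n * m ∧ 1000 * K * (1000 * m) ≤ n * m

/-- PULL (0.4 h). Multisets. PROOF. `Multiset.map_eq_cons`, `Multiset.map_eq_add` (or induction). -/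
def S_PULL : Prop := ∀ (α : Type) (f : α → ℕ) (G : Multiset α) (u : ℕ) (A B : Multiset ℕ),
  u ::ₘ (A + B) = G.map f →
  ∃ (x : α) (X Y : Multiset α), x ::ₘ (X + Y) = G ∧ f x = u ∧ X.map f = A ∧ Y.map f = B

/-- SPL2 (0.6 h). PROOF. For a value `v` let `α = A.count v`, `β = B.count v`; one of them, say `α`, is `≥ T + 4`.
`A2` has `(α - T) / 4` copies of `v`, `B2` has `β / 4` copies; `α - 4 i` is in `[T, T + 3]`, `β - 4 j` in `[0, 3]`.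
(Multisets from counts: `∑ v ∈ (A + B).toFinset, Multiset.replicate (i v) v`.) -/
def S_SPL2 : Prop := ∀ (T : ℕ) (A B : Multiset ℕ), (∀ v ∈ A + B, 2 * T + 7 ≤ (A + B).count v) →
  ∃ A2 A0 B2 B0 : Multiset ℕ, A = 4 • A2 + A0 ∧ B = 4 • B2 + B0 ∧
    ∀ v ∈ A + B, T ≤ (A0 + B0).count v ∧ (A0 + B0).count v ≤ T + 6

/-- INTM (0.8 h, from G2M). Raising multiplicities. PROOF. (INT1) one point: `1 ≤ h ≤ b`, `gd (b ::ₘ l) ≤ X + r h`,
`gd ((b + r + X / h) ::ₘ l) = 0` imply `gd ((b + r) ::ₘ l) ≤ X`: induction on `r`. Let `a_t = gd (t ::ₘ l)`, step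
`r + 1`: if `a_(b+1) + h ≤ a_b` then `a_(b+1) ≤ X + r h` and the case `r` for `b + 1` (the point `b + 1 + r + X / h` is
the same). Otherwise `a_b + 1 ≤ a_(b+1) + h`, so `a_t + 1 ≤ a_(t+1) + h` for all `t ≥ b` (G2M, `h ≤ b ≤ t`), so
`a_(b+1) ≤ a_(b+1+j) + j (h - 1)` with `j = r + X / h`: `a_(b+1) ≤ (r + X / h) (h - 1) ≤ X + r h`. As above.
(INTM) for all `A + B = S`: `gd (A.map (b + r) + B.map b + l) ≤ X + ∑_B r h` by induction on `A` (for all `B`) with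
INT1. -/
def S_INTM : Prop := ∀ (d X : ℕ) (b r h : ℕ → ℕ) (S l : Multiset ℕ),
  (∀ v ∈ S, 1 ≤ h v ∧ h v ≤ b v) →
  gd d (S.map b + l) ≤ X + (S.map fun v => r v * h v).sum →
  (∀ (A B : Multiset ℕ) (u : ℕ), u ::ₘ (A + B) = S →
    gd d ((b u + r u + (X + (B.map fun v => r v * h v).sum) / h u) ::ₘ
      (A.map (fun v => b v + r v) + B.map b + l)) = 0) →
  gd d (S.map (fun v => b v + r v) + l) ≤ X

/-- EM2 (1.2 h, from EMG, HDB). Emptiness. PROOF. EMG with `ι = ℕ × ℕ` (level, value), `T = Th.map ((2, v), mult) +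
Tl.map ((1, v), mult) + P.map ((0, x), y)`, `a (j, v) = 2 ^ j * v`, `I` = the tags which occur, `N` = the number of
the points with a given tag: at least `30 K ^ 2` for `i ∈ I` (the tags of `T` are those of `h`, `l`, `P`).
`D = ∑ a ^ 2 = 16 ∑_h v^2 + 4 ∑_l v^2 + ∑_P x^2`, so `n m^2 ≤ K^2 D`, `D ≤ n m^2`, `D ≤ Q + 2 m ∑_P (x - y) ≤
Q + M / 500`. `s = √n` (natural), `k = s / (5 K)`: `5 K k ≤ s`, `(6 K k)^2 ≥ n` (as `5 K (k + 1) ≥ s + 1`, `k ≥ 5`).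
`a ≤ 4 m`: `(k a)^2 ≤ (4/5 s m / K)^2 ≤ D`. `N ≥ 30 K^2`, `K a ≥ m`: `k N a ≥ 5 √n m ≥ √D`. `30 K^2 |I| ≤ |h| + |l| +
|P| ≤ n / 15`, `2 |I| ≤ n / (225 K^2) ≤ (k - 1) (k - 2)`. Last: `D d^2 < (Q + M / 500) (Q + M) ≤ (Q + 0.6 M)^2 ≤
wt^2`. -/
def S_EM2 : Prop := ∀ (K n m d : ℕ) (h l : Multiset ℕ) (P Th Tl : Multiset (ℕ × ℕ)), HD K n m h l P →
  d * (d + 1) < qs h l P + ms h l P → Th.map Prod.fst = h → Tl.map Prod.fst = l →
  5 * qs h l P + 3 * ms h l P ≤ 5 * wt Th Tl P →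
  gd d (Th.map Prod.snd + Tl.map Prod.snd + P.map Prod.snd) = 0

/-- RG2 (1.2 h, from RGG, HDB). Regularity. PROOF. RGG with `ι = ℕ × ℕ`, `T = h.map ((2, v), 4 v) + l.map ((1, v), 2 v) +
P.map ((0, x), y)`, `a (j, v) = 2 ^ j * v + 1`, `k = √n / (5 K)` as in EM2 (and the number of rows as there).
`(d + 3)^2 > Q + M ≥ n m^2 / K^2`, so `k (4 m + 1) < 5 k m ≤ √n m / K < d + 3`. `d + 3 ≤ 2 √n m` (`d (d + 1) < Q + M ≤
2 n m^2`), `k N a ≥ 5 √n m`. `∑ N a^2 = D + 8 h.sum + 4 l.sum + 2 ∑_P x + |h| + |l| + |P|` with `D ≤ Q + 2 m ∑_P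
(x - y)`, `8 h.sum ≤ M / 2`, the other terms are at most `n m / (50 K)`: less than `Q + M < (d + 3)^2`. Binomials:
`C(4v+1, 2) + 6 v = 16 C(v+1, 2)`, `C(2v+1, 2) + v = 4 C(v+1, 2)`. -/
def S_RG2 : Prop := ∀ (K n m d N : ℕ) (h l : Multiset ℕ) (P : Multiset (ℕ × ℕ)), HD K n m h l P →
  CR d (qs h l P) (ms h l P) → (d + 2).choose 2 ≤ N + bs h l P →
  gd d (h.map (fun v => 4 * v) + l.map (fun v => 2 * v) + P.map Prod.snd) ≤ N + 6 * h.sum + l.sum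

/-- LEV1 (0.8 h, from GLUE3, RG2, EM2, HDB, PULL). The system after one gluing. PROOF. GLUE3 with `N1 = N + 4 h.sum +
l.sum`, the groups `h.map (2 ·)`, the rest `l.map (2 ·) + P.map snd`. First hypothesis: RG2 (`N1 + (h.map (2 ·)).sum =
N + 6 h.sum + l.sum`). Second: PULL for `f = (2 ·)`, `G = h`: `A = A'.map (2 ·)`, `B = B'.map (2 ·)`, `u = 2 u'`,
`u' ::ₘ (A' + B') = h`. EM2 with `Th = (u', 4u'+1+(N1+2 B'.sum)/(2u')) ::ₘ (A'.map (v, 4v+1) + B'.map (v, 4v))`,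
`Tl = l.map (v, 2v)`: `wt ≥ Q + 4 A'.sum + 4u' (1 + (N1 + 2 B'.sum)/(2u')) ≥ Q + 4 A'.sum + 2 (N1 + 2 B'.sum) ≥
Q + 8 h.sum + 4 (A' + B').sum ≥ Q + 12 h.sum - 4 m` (`∑_P x y ≥ ∑ y^2`), and `12 h.sum - 4 m ≥ 0.6 M`:
`M ≤ 16 h.sum + n m / (200 K)`, `2.4 h.sum ≥ n m / (10 K)`. -/
def S_LEV1 : Prop := ∀ (K n m d N : ℕ) (h l : Multiset ℕ) (P : Multiset (ℕ × ℕ)), HD K n m h l P →
  CR d (qs h l P) (ms h l P) → (d + 2).choose 2 ≤ N + bs h l P →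
  gd d ((4 • h + l).map (fun v => 2 * v) + P.map Prod.snd) ≤ N + (4 • h + l).sum

/-- DRP (1.2 h, from INTM, RG2, EM2, HDB). PROOF. `Z = 4 B2.sum + B0.sum`, `r = Z / u`, `g = 3 u / 2` (natural
divisions), `X =` the right side, `h = A2 + B2`, `l = u ::ₘ (A0 + B0)`.
(a) `r g ≥ 1.5 Z - 1.5 u - r / 2 ≥ 6 B2.sum + 1.5 B0.sum - 1.5 m - n K` (`u r ≥ Z - u`, `2 g ≥ 3 u - 1`,
`r ≤ Z / u ≤ K n`). RG2 (`2 u` instead of the special multiplicity): the dimension with `4 v`, `2 v` is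
`≤ N + 6 h.sum + l.sum ≤ X + 6 A2.sum + r g`, as `2 h.sum ≥ n m / (9 K)` and `N`, `l.sum`, `1.5 m`, `n K` are at most
`n m / (1000 K)`.
(b) INTM for `S = A2`, `b = 4 v`, `r = 2`, `h = 3 v`, with `X1 = X + r g`, `l' = B2.map (4 ·) + (2u ::ₘ (A0.map (2 ·) +
B0.map (2 ·) + P.map snd))`. Emptiness by EM2, `Th = (u1, 4u1+2+(X1+6 B.sum)/(3u1)) ::ₘ (A.map (v, 4v+2) +
B.map (v, 4v)) + B2.map (v, 4v)`, `Tl = (u, 2u) ::ₘ (A0 + B0).map (v, 2v)`: `4 u1 (Y / (3 u1)) ≥ 4/3 Y - 4 u1`, so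
`wt ≥ Q + 8 A2.sum + 4/3 X1 - 4 m ≥ Q + 32/3 h.sum - 6 m - 2 n K` (`X1 ≥ 2 h.sum + 6 B2.sum - 1.5 m - n K`), and
`9.6 h.sum + n m / (300 K) ≥ 0.6 M`, `h.sum ≥ n m / (17 K)`.
(c) INTM for `S = {u}` (only one point), `b = 2 u`, `r`, `h = g`, `l' = A2.map (4v+2) + ...`. Emptiness by EM2,
`Tl = (u, 2u + r + X / g) ::ₘ ..`: `2 u (X / g) ≥ 4/3 X - 2 u` (`2 g ≤ 3 u`), `2 u r ≥ 2 Z - 2 u`, so `wt ≥ Q +
8 A2.sum + 2 Z + 8/3 h.sum - 4 m ≥ Q + 32/3 h.sum - 4 m`. -/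
def S_DRP : Prop := ∀ (K n m d N u : ℕ) (A2 A0 B2 B0 : Multiset ℕ) (P : Multiset (ℕ × ℕ)),
  HD K n m (A2 + B2) (u ::ₘ (A0 + B0)) P →
  CR d (qs (A2 + B2) (u ::ₘ (A0 + B0)) P) (ms (A2 + B2) (u ::ₘ (A0 + B0)) P) →
  (d + 2).choose 2 ≤ N + bs (A2 + B2) (u ::ₘ (A0 + B0)) P → 1000 * K * N ≤ n * m →
  gd d (A2.map (fun v => 4 * v + 2) + B2.map (fun v => 4 * v) +
    ((2 * u + (4 * B2.sum + B0.sum) / u) ::ₘ
      (A0.map (fun v => 2 * v) + B0.map (fun v => 2 * v) + P.map Prod.snd))) ≤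
    2 * (A2.sum + B2.sum) + Multiset.card A2

/-- VOI (1 h, from EM2, HDB, PULL). PROOF. PULL for `f = snd`, `G = A2.map (v, 2v+1) + B2.map (v, 2v)`: `A`, `B`, `u'` are the
second components of `X`, `Y`, `x`, `x ::ₘ (X + Y) = G`. EM2 with `Th = (x.1, 2u'+1+B.sum/u') ::ₘ (X.map (p.1,
2 p.2 + 1) + Y.map (p.1, 2 p.2))`, `Tl = (u, 2u+1+q) ::ₘ (A0.map (v, 2v+1) + B0.map (v, 2v))`,
`q = (N + 4 B2.sum + B0.sum) / u`. `wt`: the terms `∑_G 4 p.1 * 2 p.2 = 16 ∑_h v^2 + 8 A2.sum`; `4 ∑_X p.1`; `4 x.1 (1 +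
B.sum / u') ≥ 4 x.1 B.sum / u' ≥ 2 B.sum - 2 B.sum / (2 x.1 + 1) ≥ 4 ∑_Y p.1 - 2 K n` (`u' ≤ 2 x.1 + 1`,
`B.sum ≤ n (2 m + 1) / 16`, `m ≤ K x.1`); `2 u (1 + q) ≥ 2 (4 B2.sum)`. Together `wt ≥ Q + 8 A2.sum + 8 B2.sum +
4 (h.sum - m) - 2 K n = Q + 12 h.sum - 4 m - 2 K n`, and this is `≥ Q + 0.6 M` (see LEV1). -/
def S_VOI : Prop := ∀ (K n m d N u : ℕ) (A2 A0 B2 B0 : Multiset ℕ) (P : Multiset (ℕ × ℕ)),
  HD K n m (A2 + B2) (u ::ₘ (A0 + B0)) P →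
  d * (d + 1) < qs (A2 + B2) (u ::ₘ (A0 + B0)) P + ms (A2 + B2) (u ::ₘ (A0 + B0)) P →
  ∀ (A B : Multiset ℕ) (u' : ℕ),
    u' ::ₘ (A + B) = A2.map (fun v => 2 * v + 1) + B2.map (fun v => 2 * v) →
    gd d ((2 * u' + 1 + (0 + B.sum) / u') ::ₘ
      (A.map (fun v => 2 * v + 1) + B.map (fun v => 2 * v) +
        ((2 * u + 1 + (N + (4 • B2 + B0).sum) / u) ::ₘ
          (A0.map (fun v => 2 * v + 1) + B0.map (fun v => 2 * v) + P.map Prod.snd)))) = 0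

/-- EMPT (0.6 h, from GLUE3, DRP, VOI). Emptiness at the first level. PROOF. GLUE3 with `N = 0`, groups
`A2.map (2v+1) + B2.map (2v)`, the rest `(2u+1+q) ::ₘ (A0.map (2v+1) + B0.map (2v) + P.map snd)`. Its first hypothesis:
DRP and the monotonicity in the multiplicities (`gd d (t ::ₘ l) ≤ gd d (s ::ₘ l)` for `s ≤ t`: the conditions are
stronger, as `Helper90.UC.gd_mono`; also `2v+1` instead of `2v` for `v ∈ A0`), `(4 B2.sum + B0.sum) / u ≤ q`. -/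
def S_EMPT : Prop := ∀ (K n m d N u : ℕ) (A2 A0 B2 B0 : Multiset ℕ) (P : Multiset (ℕ × ℕ)),
  HD K n m (A2 + B2) (u ::ₘ (A0 + B0)) P →
  CR d (qs (A2 + B2) (u ::ₘ (A0 + B0)) P) (ms (A2 + B2) (u ::ₘ (A0 + B0)) P) →
  (d + 2).choose 2 ≤ N + bs (A2 + B2) (u ::ₘ (A0 + B0)) P → 1000 * K * N ≤ n * m →
  gd d ((2 * u + 1 + (N + (4 • B2 + B0).sum) / u) ::ₘ
    ((4 • A2 + A0).map (fun v => 2 * v + 1) + (4 • B2 + B0).map (fun v => 2 * v) +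
      P.map Prod.snd)) = 0

/-- the hypotheses on the list `4 • g + P.map snd` -/
def HG (K n m : ℕ) (g : Multiset ℕ) (P : Multiset (ℕ × ℕ)) : Prop :=
  1 ≤ K ∧ 10 ^ 8 * K ^ 4 ≤ n ∧ n ≤ m ∧ 4 * Multiset.card g + Multiset.card P = n ∧
    (∀ v ∈ g, v ≤ m ∧ m ≤ K * v ∧ 10 ^ 4 * K ^ 3 ≤ g.count v) ∧
    (∀ p ∈ P, p.2 ≤ p.1 ∧ p.1 ≤ m ∧ m ≤ K * p.2 ∧ 30 * K ^ 2 ≤ (P.map Prod.fst).count p.1) ∧
    1000 * K * Multiset.card P ≤ n ∧ 1000 * K * (P.map fun p => p.1 - p.2).sum ≤ n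

/-- HDS (0.5 h). PROOF. `v ∈ h` or `v ∈ l`: `v ∈ g`. `4 h.count v = g.count v - l.count v ≥ 10^4 K^3 - 30 K^2 - 7 ≥
120 K^2`. `card l ≤ (30 K^2 + 7) q` with `q = g.toFinset.card`, `10^4 K^3 q ≤ card g ≤ n / 4`
(`Multiset.toFinset_sum_count_eq`), so `1000 K card l ≤ 1000 K (37 K^2) n / (4 * 10^4 K^3) ≤ n`. -/
def S_HDS : Prop := ∀ (K n m : ℕ) (g h l : Multiset ℕ) (P : Multiset (ℕ × ℕ)), HG K n m g P →
  g = 4 • h + l → (∀ v ∈ g, 30 * K ^ 2 ≤ l.count v ∧ l.count v ≤ 30 * K ^ 2 + 7) → HD K n m h l P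

/-- ONEG (0.8 h, from GLUE3, LEV1, EMPT, SPL2, HDS, HDB). The degrees next to the critical one. PROOF. `N =` the right
side; `1000 K N ≤ n m` as `N ≤ d + 1`, `d^2 < Q + M ≤ 2 n m^2`, `n ≥ 10^8 K^4`. GLUE3 with `N, g, P.map snd`. First
hypothesis: SPL2 (`T = 30 K^2`) for `A = g`, `B = 0`: `h = A2 + B2`, `l = A0 + B0`, HDS, LEV1. Second: for
`u ::ₘ (A + B) = g` SPL2 for `A`, `B` (the counts are at least `10^4 K^3 - 1`), `h = A2 + B2`, `l = u ::ₘ (A0 + B0)`, HDS,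
EMPT. (`qs`, `ms`, `bs` of `h, l, P` are the sums for `4 • g + P.map snd`, `g = 4 • h + l`.) -/
def S_ONEG : Prop := ∀ (K n m d : ℕ) (g : Multiset ℕ) (P : Multiset (ℕ × ℕ)), HG K n m g P →
  CR d (((4 • g + P.map Prod.snd).map fun v => v ^ 2).sum) (4 • g + P.map Prod.snd).sum →
  gd d (4 • g + P.map Prod.snd) ≤ (d + 2).choose 2 -
    ((4 • g + P.map Prod.snd).map fun v => (v + 1).choose 2).sum

/-- ALLG (0.3 h, from ONEG, MON). As ALLN (Helper79/UC/ALLN.lean, `all_of_one`). -/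
def S_ALLG : Prop := ∀ (K n m d : ℕ) (g : Multiset ℕ) (P : Multiset (ℕ × ℕ)), HG K n m g P →
  gd d (4 • g + P.map Prod.snd) ≤ (d + 2).choose 2 -
    ((4 • g + P.map Prod.snd).map fun v => (v + 1).choose 2).sum

/-- BALK (0.4 h, from CNV). As BAL (Helper94/UC/BAL.lean), with `K` instead of `2`. -/
def S_BALK : Prop := ∀ K : ℕ, ∃ N1 : ℕ, ∀ (L : Multiset ℕ) (n m d : ℕ), Multiset.card L = n → N1 ≤ n →
  (∀ v ∈ L, v ≤ m ∧ m ≤ K * v) → m ≤ n ^ 5 →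
  gd d L ≤ (d + 2).choose 2 - (L.map fun v => (v + 1).choose 2).sum

/-- TGP (1 h, from SPL2). From tagged lists to `(g, P)`. `T` = pairs (tag, multiplicity). PROOF. For a tag `x` let
`N x` = the number of the pairs `(x, x)` in `T`. `R` = the `(x, x)` with `2 N x ≥ C`; `P0` = the other pairs. `R` (as
multiset of numbers) is `4 • g + r0` by SPL2 for `A = R`, `B = 0` (parameter `30 K^2`): `r0.count v` in `[30 K^2,
30 K^2 + 6]`, `4 g.count v ≥ C / 2 - 36 K^2`. `P = P0 + r0.map (x, x)`. The pairs `(x, x)` in `P0` have `2 N x < C`, so at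
least `C / 2 ≥ N x` pairs with the tag `x` are not diagonal; so `card P0 ≤ 2 #(not diagonal) ≤ 2 ∑ (x - y) ≤ 2 n / C`;
`card r0 ≤ 36 K^2 * (2 n / C)`. A tag of `P0` with `2 N x < C` occurs at least `C` times in `P0`; a tag of `P0` with
`2 N x ≥ C` occurs at least `30 K^2` times in `r0`. `C = 10 ^ 9 * K ^ 4`. -/
def S_TGP : Prop := ∀ (K n m : ℕ) (T : Multiset (ℕ × ℕ)), 1 ≤ K → n ≤ m → Multiset.card T = n →
  10 ^ 9 * K ^ 4 ≤ n → (∀ p ∈ T, p.2 ≤ p.1 ∧ p.1 ≤ m ∧ m ≤ K * p.2 ∧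
    10 ^ 9 * K ^ 4 ≤ (T.map Prod.fst).count p.1) →
  10 ^ 9 * K ^ 4 * (T.map fun p => p.1 - p.2).sum ≤ n →
  ∃ (g : Multiset ℕ) (P : Multiset (ℕ × ℕ)), T.map Prod.snd = 4 • g + P.map Prod.snd ∧ HG K n m g P

/-- FT (0.6 h, from ALLG, BALK, TGP). Tagged lists. PROOF. `C = 10 ^ 9 * (K + 1) ^ 4 + N1 + 1` (`N1` of BALK for `K`).
`m0` = the largest multiplicity; `m0 ≤ K y` for all `y`. If `m0 ≤ n ^ 5`: BALK. Otherwise let `m` = the largest tag: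
`m ≤ m0 + n` (`x - y ≤ n`), `n ≤ y` for all `y` (`K y ≥ n ^ 5`), so `m ≤ (K + 1) y`; TGP and ALLG for `K + 1`.
(`T = 0` is excluded by `C ≤ n`; `K = 0` is impossible for `n ≥ 1` or gives `m0 = 0`, `BALK`.) -/
def S_FT : Prop := ∀ K : ℕ, ∃ C : ℕ, ∀ (d n : ℕ) (T : Multiset (ℕ × ℕ)), Multiset.card T = n → C ≤ n →
  C * (T.map fun p => p.1 - p.2).sum ≤ n →
  (∀ p ∈ T, p.2 ≤ p.1 ∧ C ≤ (T.map Prod.fst).count p.1 ∧ ∀ p' ∈ T, p.2 ≤ K * p'.2) →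
  gd d (T.map Prod.snd) ≤ (d + 2).choose 2 - ((T.map Prod.snd).map fun v => (v + 1).choose 2).sum

/-- the repeated clause of the final statement -/
def CaseR (K C n : ℕ) (m : Fin n → ℕ) : Prop :=
  ∃ m' : Fin n → ℕ,
    C * ∑ i ∈ Finset.univ.filter (fun i => 2 ≤ m i), (m' i - m i) ≤
      (Finset.univ.filter (fun i => 2 ≤ m i)).card ∧
    ∀ i, 2 ≤ m i → m i ≤ m' i ∧
      C ≤ (Finset.univ.filter (fun j => 2 ≤ m j ∧ m' j = m' i)).card ∧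
      ∀ j, 2 ≤ m j → m i ≤ K * m j

/-- FR (0.8 h, from FT, GDG). PROOF. `T` = the multiset of the `(m' i, m i)` with `2 ≤ m i`; if it is empty start from
the empty list, otherwise FT (`C ≤` the number of them, by the second condition). Then ones by
`Helper90.UC.gd_one`, zeros by `Helper90.UC.gd_mono`, GDG: see Helper79/UC/FW.lean. -/
def S_FR : Prop := ∀ K : ℕ, ∃ C : ℕ, ∀ (n d : ℕ) (m : Fin n → ℕ), CaseR K C n m →
  GenDim d m (max (vdim d m) 0)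

end Pool.Agent.Helper27.UC
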